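import Pool.Agent.Work.MP_69fea5_lc.H2.Stmts

/-!
Basic lemmas: induction principles, collection, definability of the notions of `Stmts`.
-/

set_option autoImplicit false
set_option linter.unusedSectionVars false

namespace Pool.Agent.Work.MP_69fea5_lc.H2

universe u

variable {N : Type u} [CommSemiring N] [LinearOrder N]
variable {S : Set (Set N)} {α : Type u} [Cx N α]

/-! ### definability -/

theorem D.bs (hS : Good S) {k a m : α → N} (hk : DF S k) (ha : DF S a) (hm : DF S m) :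
    D S fun p => k p ∈ bs (a p) (m p) :=
  D.dvd hS (DF.add hS (DF.one hS) (DF.mul hS (DF.add hS hk (DF.one hS)) hm)) ha

theorem DF.pr (hS : Good S) {p l : α → N} (hp : DF S p) (hl : DF S l) :
    DF S fun a => pr (p a) (l a) :=
  DF.add hS (DF.mul hS (DF.add hS hp hl) (DF.add hS hp hl)) hp

/-- a family of sets depending on the context -/
theorem D.memF {F : α → Set N} (hF : D S fun p : N × α => p.1 ∈ F p.2) {f : α → N}
    (hf : DF S f) : D S fun a => f a ∈ F a :=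
  D.sub (R := fun x a => x ∈ F a) hF hf

theorem D.W' (hS : Good S) {A B : α → Set N} (hA : D S fun p : N × α => p.1 ∈ A p.2)
    (hB : D S fun p : N × α => p.1 ∈ B p.2) {p q l : α → N}
    (hp : DF S p) (hq : DF S q) (hl : DF S l) :
    D S fun a => W (A a) (p a) (B a) (q a) (l a) :=
  D.ball hS (R := fun k a => (p a + k ∈ A a ↔ q a + k ∈ B a))
    (D.iff
      (D.memF (α := N × α) (F := fun a => A a.2) (D.wk1 (R := fun p : N × α => p.1 ∈ A p.2) hA)
        (DF.add hS hp.wk (DF.v0 hS)))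
      (D.memF (α := N × α) (F := fun a => B a.2) (D.wk1 (R := fun p : N × α => p.1 ∈ B p.2) hB)
        (DF.add hS hq.wk (DF.v0 hS)))) hl

theorem D.W (hS : Good S) {A B : Set N} (hA : A ∈ S) (hB : B ∈ S) {p q l : α → N}
    (hp : DF S p) (hq : DF S q) (hl : DF S l) : D S fun a => W A (p a) B (q a) (l a) :=
  D.W' hS (A := fun _ => A) (B := fun _ => B) (D.mem hA (DF.v0 hS)) (D.mem hB (DF.v0 hS)) hp hq hl

theorem D.Av (hS : Good S) {C : Set N} (hC : C ∈ S) {F : α → Set N}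
    (hF : D S fun p : N × α => p.1 ∈ F p.2) {x n : α → N} (hx : DF S x) (hn : DF S n) :
    D S fun a => Av C (F a) (x a) (n a) := by
  refine D.all (R := fun p a => ∀ l j, H2.pr p l ∈ F a → j + l ≤ n a →
    ¬ H2.W C (x a + j) C p l) ?_
  refine D.all (R := fun l (a : N × α) => ∀ j, H2.pr a.1 l ∈ F a.2 → j + l ≤ n a.2 →
    ¬ H2.W C (x a.2 + j) C a.1 l) ?_
  refine D.all (R := fun j (a : N × N × α) => H2.pr a.2.1 a.1 ∈ F a.2.2 → j + a.1 ≤ n a.2.2 →
    ¬ H2.W C (x a.2.2 + j) C a.2.1 a.1) ?_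
  refine D.imp ?_ (D.imp ?_ (D.not ?_))
  · exact D.memF (α := N × N × N × α) (F := fun a => F a.2.2.2)
      (D.wk1 (R := fun p : N × N × N × α => p.1 ∈ F p.2.2.2)
        (D.wk1 (R := fun p : N × N × α => p.1 ∈ F p.2.2)
          (D.wk1 (R := fun p : N × α => p.1 ∈ F p.2) hF)))
      (DF.pr hS (DF.v2 hS) (DF.v1 hS))
  · exact D.le hS (DF.add hS (DF.v0 hS) (DF.v1 hS)) hn.wk.wk.wk
  · exact D.W hS hC hC (DF.add hS hx.wk.wk.wk (DF.v0 hS)) (DF.v2 hS) (DF.v1 hS)

theorem D.Free (hS : Good S) {C : Set N} (hC : C ∈ S) {F : α → Set N}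
    (hF : D S fun p : N × α => p.1 ∈ F p.2) : D S fun a => Free C (F a) := by
  refine D.all (R := fun n a => ∀ z, ∃ x, z ≤ x ∧ H2.Av C (F a) x n) ?_
  refine D.all (R := fun z (a : N × α) => ∃ x, z ≤ x ∧ H2.Av C (F a.2) x a.1) ?_
  refine D.ex (R := fun x (a : N × N × α) => a.1 ≤ x ∧ H2.Av C (F a.2.2) x a.2.1) ?_
  refine D.and (D.le hS (DF.v1 hS) (DF.v0 hS)) ?_
  exact D.Av hS hC (α := N × N × N × α) (F := fun a => F a.2.2.2)
      (D.wk1 (R := fun p : N × N × N × α => p.1 ∈ F p.2.2.2)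
        (D.wk1 (R := fun p : N × N × α => p.1 ∈ F p.2.2)
          (D.wk1 (R := fun p : N × α => p.1 ∈ F p.2) hF))) (DF.v0 hS) (DF.v2 hS)

theorem D.Ev (hS : Good S) {B : Set N} (hB : B ∈ S) {P : N → α → Prop}
    (hP : D S fun p : N × α => P p.1 p.2) : D S fun a => Ev B fun b => P b a :=
  D.ex (R := fun z a => ∀ b ∈ B, z ≤ b → P b a)
    (D.all (R := fun b (a : N × α) => b ∈ B → a.1 ≤ b → P b a.2)
      ((D.mem hB (DF.v0 hS)).imp ((D.le hS (DF.v1 hS) (DF.v0 hS)).imp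
        (D.wk1 (R := fun p : N × α => P p.1 p.2) hP))))

theorem D.Blk (hS : Good S) {C Y : Set N} (hC : C ∈ S) (hY : Y ∈ S) {p l i : α → N}
    (hp : DF S p) (hl : DF S l) (hi : DF S i) : D S fun a => Blk C Y (p a) (l a) (i a) := by
  refine D.ex (R := fun n a => ∀ s, n ≤ s → H2.W C s Y (p a) (l a) → ∀ q,
    H2.W Y q Y (p a) (l a) → (q + i a + (s + i a) ∈ Y ↔ p a + i a ∉ Y)) ?_
  refine D.all (R := fun s (a : N × α) => a.1 ≤ s → H2.W C s Y (p a.2) (l a.2) → ∀ q,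
    H2.W Y q Y (p a.2) (l a.2) → (q + i a.2 + (s + i a.2) ∈ Y ↔ p a.2 + i a.2 ∉ Y)) ?_
  refine (D.le hS (DF.v1 hS) (DF.v0 hS)).imp ?_
  refine (D.W hS hC hY (DF.v0 hS) hp.wk.wk hl.wk.wk).imp ?_
  refine D.all (R := fun q (a : N × N × α) => H2.W Y q Y (p a.2.2) (l a.2.2) →
    (q + i a.2.2 + (a.1 + i a.2.2) ∈ Y ↔ p a.2.2 + i a.2.2 ∉ Y)) ?_
  refine (D.W hS hY hY (DF.v0 hS) hp.wk.wk.wk hl.wk.wk.wk).imp ?_
  refine D.iff ?_ (D.not ?_)
  · exact D.mem hY (DF.add hS (DF.add hS (DF.v0 hS) hi.wk.wk.wk)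
      (DF.add hS (DF.v1 hS) hi.wk.wk.wk))
  · exact D.mem hY (DF.add hS hp.wk.wk.wk hi.wk.wk.wk)

theorem D.Ext (hS : Good S) {Y : Set N} (hY : Y ∈ S) {p' l' d p l : α → N}
    (hp' : DF S p') (hl' : DF S l') (hd : DF S d) (hp : DF S p) (hl : DF S l) :
    D S fun a => Ext Y (p' a) (l' a) (d a) (p a) (l a) :=
  (D.le hS (DF.add hS hd hl) hl').and (D.W hS hY hY (DF.add hS hp' hd) hp hl)

/-! ### order and induction -/

section order

variable [IsStrictOrderedRing N] [CanonicallyOrderedAdd N]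

theorem Good.le_of_lt_succ (hS : Good S) {a b : N} (h : a < b + 1) : a ≤ b := (hS.lt_succ a b).1 h

theorem Good.succ_le (hS : Good S) {a b : N} (h : a < b) : a + 1 ≤ b := by
  by_contra hc
  push Not at hc
  exact absurd h (not_lt.2 (hS.le_of_lt_succ hc))

theorem Good.lt_succ_self (a : N) : a < a + 1 := lt_add_of_pos_right a one_pos

theorem exists_add {a b : N} (h : a ≤ b) : ∃ c, b = a + c := le_iff_exists_add.1 h

/-- strong induction -/
theorem D.strong (hS : Good S) {R : N → Prop} (h : D S fun p : N × PUnit.{u + 1} => R p.1)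
    (hs : ∀ n, (∀ k < n, R k) → R n) (n : N) : R n := by
  have key : ∀ n, ∀ k < n, R k := by
    refine D.induct hS (R := fun n => ∀ k < n, R k) ?_ ?_ ?_
    · exact D.ball hS (R := fun k _ => R k) (D.comp1 h (DF.v0 hS)) (DF.v0 hS)
    · intro k hk
      exact absurd hk (not_lt.2 zero_le)
    · intro n ih k hk
      rcases (hS.le_of_lt_succ hk).lt_or_eq with h1 | h1
      · exact ih k h1
      · exact h1 ▸ hs n ih
  exact hs n (key n)

/-- the least number principle -/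
theorem D.least (hS : Good S) {R : N → Prop} (h : D S fun p : N × PUnit.{u + 1} => R p.1)
    (hx : ∃ x, R x) : ∃ x, R x ∧ ∀ y < x, ¬ R y := by
  by_contra hc
  push Not at hc
  obtain ⟨x, hx⟩ := hx
  refine D.strong hS (R := fun x => ¬ R x) h.not (fun n ih hn => ?_) x hx
  obtain ⟨y, hy, hy'⟩ := hc n hn
  exact ih y hy hy'

/-- collection -/
theorem D.collect (hS : Good S) {R : N → N → Prop}
    (h : D S fun p : N × N × PUnit.{u + 1} => R p.1 p.2.1) (n : N)
    (hx : ∀ x < n, ∃ z, ∀ b, z ≤ b → R x b) : ∃ z, ∀ x < n, ∀ b, z ≤ b → R x b := by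
  revert hx
  refine D.induct hS (R := fun n => (∀ x < n, ∃ z, ∀ b, z ≤ b → R x b) →
    ∃ z, ∀ x < n, ∀ b, z ≤ b → R x b) ?_ ?_ ?_ n
  · refine D.imp ?_ ?_
    · refine D.ball hS (R := fun x _ => ∃ z, ∀ b, z ≤ b → R x b) ?_ (DF.v0 hS)
      refine D.ex (R := fun z (p : N × N × PUnit.{u + 1}) => ∀ b, z ≤ b → R p.1 b) ?_
      refine D.all (R := fun b (p : N × N × N × PUnit.{u + 1}) => p.1 ≤ b → R p.2.1 b) ?_
      exact (D.le hS (DF.v1 hS) (DF.v0 hS)).imp (D.comp2 h (DF.v2 hS) (DF.v0 hS))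
    · refine D.ex (R := fun z (p : N × PUnit.{u + 1}) => ∀ x < p.1, ∀ b, z ≤ b → R x b) ?_
      refine D.ball hS (R := fun x (p : N × N × PUnit.{u + 1}) => ∀ b, p.1 ≤ b → R x b) ?_
        (DF.v1 hS)
      refine D.all (R := fun b (p : N × N × N × PUnit.{u + 1}) => p.2.1 ≤ b → R p.1 b) ?_
      exact (D.le hS (DF.v2 hS) (DF.v0 hS)).imp (D.comp2 h (DF.v1 hS) (DF.v0 hS))
  · intro _
    exact ⟨0, fun x hx => absurd hx (not_lt.2 zero_le)⟩
  · intro n ih hx
    obtain ⟨z, hz⟩ := ih fun x hxn => hx x (hxn.trans (Good.lt_succ_self n))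
    obtain ⟨z', hz'⟩ := hx n (Good.lt_succ_self n)
    refine ⟨max z z', fun x hxn b hb => ?_⟩
    rcases (hS.le_of_lt_succ hxn).lt_or_eq with h1 | h1
    · exact hz x h1 b ((le_max_left _ _).trans hb)
    · subst h1
      exact hz' b ((le_max_right _ _).trans hb)

theorem Ev.mono {B : Set N} {P Q : N → Prop} (h : Ev B P) (hPQ : ∀ b ∈ B, P b → Q b) :
    Ev B Q := by
  obtain ⟨z, hz⟩ := h
  exact ⟨z, fun b hb hzb => hPQ b hb (hz b hb hzb)⟩

theorem Ev.and {B : Set N} {P Q : N → Prop} (h : Ev B P) (h' : Ev B Q) :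
    Ev B fun b => P b ∧ Q b := by
  obtain ⟨z, hz⟩ := h
  obtain ⟨z', hz'⟩ := h'
  exact ⟨max z z', fun b hb hzb =>
    ⟨hz b hb ((le_max_left _ _).trans hzb), hz' b hb ((le_max_right _ _).trans hzb)⟩⟩

theorem Ev.ge (B : Set N) (z : N) : Ev B fun b => z ≤ b := ⟨z, fun _ _ h => h⟩

theorem Ev.subset {B B' : Set N} (hB : B' ⊆ B) {P : N → Prop} (h : Ev B P) : Ev B' P := by
  obtain ⟨z, hz⟩ := h
  exact ⟨z, fun b hb => hz b (hB hb)⟩

theorem Ev.exists {B : Set N} (hB : Unb B) {P : N → Prop} (h : Ev B P) (m : N) :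
    ∃ b ∈ B, m ≤ b ∧ P b := by
  obtain ⟨z, hz⟩ := h
  obtain ⟨b, hb, hmb⟩ := hB (max z m)
  exact ⟨b, hb, (le_max_right _ _).trans hmb, hz b hb ((le_max_left _ _).trans hmb)⟩

/-- `for all t < n, eventually` gives `eventually, for all t < n` -/
theorem Ev.ball (hS : Good S) {B : Set N} (hB : B ∈ S) {R : N → N → Prop}
    (h : D S fun p : N × N × PUnit.{u + 1} => R p.1 p.2.1) (n : N)
    (hx : ∀ t < n, Ev B (R t)) : Ev B fun b => ∀ t < n, R t b := by
  obtain ⟨z, hz⟩ := D.collect hS (R := fun t b => b ∈ B → R t b)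
    ((D.mem hB (DF.v1 hS)).imp h) n (fun t ht => by
      obtain ⟨z, hz⟩ := hx t ht
      exact ⟨z, fun b hzb hb => hz b hb hzb⟩)
  exact ⟨z, fun b hb hzb t ht => hz t ht b hzb hb⟩

/-- parity -/
theorem Good.parity (hS : Good S) (x : N) : ∃ y, x = y + y ∨ x = y + y + 1 := by
  refine D.induct hS (R := fun x => ∃ y, x = y + y ∨ x = y + y + 1) ?_ ?_ ?_ x
  · refine D.ex (R := fun y (p : N × PUnit.{u + 1}) => p.1 = y + y ∨ p.1 = y + y + 1) ?_
    exact (D.eq (DF.v1 hS) (DF.add hS (DF.v0 hS) (DF.v0 hS))).or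
      (D.eq (DF.v1 hS) (DF.add hS (DF.add hS (DF.v0 hS) (DF.v0 hS)) (DF.one hS)))
  · exact ⟨0, Or.inl (by simp)⟩
  · rintro n ⟨y, h | h⟩
    · exact ⟨y, Or.inr (by rw [h])⟩
    · exact ⟨y + 1, Or.inl (by rw [h]; ring)⟩

theorem W.refl (A : Set N) (p l : N) : W A p A p l := fun _ _ => Iff.rfl

theorem W.symm {A B : Set N} {p q l : N} (h : W A p B q l) : W B q A p l :=
  fun k hk => (h k hk).symm

theorem W.trans {A B C : Set N} {p q r l : N} (h : W A p B q l) (h' : W B q C r l) :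
    W A p C r l := fun k hk => (h k hk).trans (h' k hk)

theorem W.sub {A B : Set N} {p q l : N} (h : W A p B q l) {j m : N} (hjm : j + m ≤ l) :
    W A (p + j) B (q + j) m := fun k hk => by
  have h1 : j + k < l := lt_of_lt_of_le (by grind) hjm
  have := h (j + k) h1
  rwa [← add_assoc, ← add_assoc] at this

theorem Ext.refl (Y : Set N) (p l : N) : Ext Y p l 0 p l :=
  ⟨by simp, by rw [add_zero]; exact W.refl _ _ _⟩

theorem Ext.trans {Y : Set N} {p'' l'' d' p' l' d p l : N} (h' : Ext Y p'' l'' d' p' l')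
    (h : Ext Y p' l' d p l) : Ext Y p'' l'' (d + d') p l := by
  refine ⟨?_, ?_⟩
  · have h1 := h.1
    have h2 := h'.1
    grind
  · have h1 := (h'.2.sub h.1).trans h.2
    rwa [add_assoc, add_comm d' d] at h1

/-- `pr` is injective -/
theorem pr_inj (hS : Good S) {p l p' l' : N} (h : pr p l = pr p' l') : p = p' ∧ l = l' := by
  have key : ∀ p l p' l' : N, pr p l = pr p' l' → ¬ p + l < p' + l' := by
    intro p l p' l' h hlt
    have h1 : p + l + 1 ≤ p' + l' := hS.succ_le hlt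
    have h2 : (p + l + 1) * (p + l + 1) ≤ (p' + l') * (p' + l') := mul_le_mul' h1 h1
    have h3 : (p + l) * (p + l) + p < (p + l + 1) * (p + l + 1) := by
      have e : (p + l + 1) * (p + l + 1) = (p + l) * (p + l) + p + (p + l + l + 1) := by ring
      rw [e]
      exact lt_add_of_pos_right _ (lt_of_le_of_lt zero_le (Good.lt_succ_self _))
    have h4 : (p' + l') * (p' + l') ≤ (p' + l') * (p' + l') + p' := le_self_add
    have h5 := (h3.trans_le h2).trans_le h4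
    exact absurd h (ne_of_lt h5)
  have h1 : p + l = p' + l' :=
    le_antisymm (not_lt.1 (key _ _ _ _ h.symm)) (not_lt.1 (key _ _ _ _ h))
  have h2 : p = p' := by
    unfold pr at h
    rw [h1] at h
    exact add_left_cancel h
  subst h2
  exact ⟨rfl, add_left_cancel h1⟩

end order

end Pool.Agent.Work.MP_69fea5_lc.H2
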