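import Pool.Agent.Work.MP_69fea5_lc.H2.Defs

/-!
A calculus of arithmetically definable relations over a structure for second-order arithmetic.
Contexts are the types `PUnit`, `N × PUnit`, `N × N × PUnit`, ...
-/

set_option autoImplicit false

namespace Pool.Agent.Work.MP_69fea5_lc.H2

universe u

/-! ### substitution -/

section subst

variable {N : Type u}

def Tm.subst (σ : ℕ → Tm) : Tm → Tm
  | .var i => σ i
  | .zero => .zero
  | .one => .one
  | .add s t => .add (s.subst σ) (t.subst σ)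
  | .mul s t => .mul (s.subst σ) (t.subst σ)

theorem Tm.val_subst (M : L2 N) (σ : ℕ → Tm) (v : ℕ → N) (t : Tm) :
    (t.subst σ).val M v = t.val M fun i => (σ i).val M v := by
  induction t with
  | var i => rfl
  | zero => rfl
  | one => rfl
  | add s t ihs iht => simp only [Tm.subst, Tm.val, ihs, iht]
  | mul s t ihs iht => simp only [Tm.subst, Tm.val, ihs, iht]

def lift (σ : ℕ → Tm) : ℕ → Tm
  | 0 => .var 0
  | i + 1 => (σ i).subst fun j => .var (j + 1)

theorem val_lift (M : L2 N) (σ : ℕ → Tm) (v : ℕ → N) (x : N) :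
    (fun i => (lift σ i).val M (push x v)) = push x fun i => (σ i).val M v := by
  funext i
  cases i with
  | zero => rfl
  | succ i =>
    simp only [lift, Tm.val_subst]
    rfl

def Fm.subst : (ℕ → Tm) → Fm → Fm
  | σ, .eq s t => .eq (s.subst σ) (t.subst σ)
  | σ, .lt s t => .lt (s.subst σ) (t.subst σ)
  | σ, .mem t j => .mem (t.subst σ) j
  | σ, .neg φ => .neg (φ.subst σ)
  | σ, .and φ ψ => .and (φ.subst σ) (ψ.subst σ)
  | σ, .all φ => .all (φ.subst (lift σ))

theorem Fm.sat_subst (M : L2 N) (V : ℕ → Set N) (φ : Fm) : ∀ (σ : ℕ → Tm) (v : ℕ → N),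
    ((φ.subst σ).Sat M V v ↔ φ.Sat M V fun i => (σ i).val M v) := by
  induction φ with
  | eq s t => intro σ v; simp only [Fm.subst, Fm.Sat, Tm.val_subst]
  | lt s t => intro σ v; simp only [Fm.subst, Fm.Sat, Tm.val_subst]
  | mem t j => intro σ v; simp only [Fm.subst, Fm.Sat, Tm.val_subst]
  | neg φ ih => intro σ v; simp only [Fm.subst, Fm.Sat, ih]
  | and φ ψ ih1 ih2 => intro σ v; simp only [Fm.subst, Fm.Sat, ih1, ih2]
  | all φ ih =>
    intro σ v
    simp only [Fm.subst, Fm.Sat, ih]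
    exact forall_congr' fun x => by rw [val_lift]

def Fm.mapS (f : ℕ → ℕ) : Fm → Fm
  | .eq s t => .eq s t
  | .lt s t => .lt s t
  | .mem t j => .mem t (f j)
  | .neg φ => .neg (φ.mapS f)
  | .and φ ψ => .and (φ.mapS f) (ψ.mapS f)
  | .all φ => .all (φ.mapS f)

theorem Fm.sat_mapS (M : L2 N) (V : ℕ → Set N) (f : ℕ → ℕ) (φ : Fm) : ∀ v : ℕ → N,
    ((φ.mapS f).Sat M V v ↔ φ.Sat M (fun j => V (f j)) v) := by
  induction φ with
  | eq s t => intro v; exact Iff.rfl
  | lt s t => intro v; exact Iff.rfl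
  | mem t j => intro v; exact Iff.rfl
  | neg φ ih => intro v; simp only [Fm.mapS, Fm.Sat, ih]
  | and φ ψ ih1 ih2 => intro v; simp only [Fm.mapS, Fm.Sat, ih1, ih2]
  | all φ ih => intro v; simp only [Fm.mapS, Fm.Sat, ih]

end subst

/-! ### contexts and definable relations -/

/-- Contexts: a value of the context gives values to the number variables. -/
class Cx (N : Type u) (α : Type u) where
  val : α → ℕ → N

variable {N : Type u} [CommSemiring N] [LinearOrder N]

instance cxUnit : Cx N PUnit.{u + 1} := ⟨fun _ _ => 0⟩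

instance cxProd {β : Type u} [Cx N β] : Cx N (N × β) := ⟨fun p => push p.1 (Cx.val p.2)⟩

/-- The structure for second-order arithmetic on an ordered semiring `N`. -/
def std (S : Set (Set N)) : L2 N := ⟨0, 1, (· + ·), (· * ·), (· < ·), S⟩

/-- `R` is arithmetically definable with set parameters from `S`. -/
def D (S : Set (Set N)) {α : Type u} [Cx N α] (R : α → Prop) : Prop :=
  ∃ (φ : Fm) (V : ℕ → Set N), (∀ j, V j ∈ S) ∧ ∀ a, (R a ↔ φ.Sat (std S) V (Cx.val a))

/-- The ordered semiring `N` with the family `S` of subsets is a model of `ACA_0`. -/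
structure Good (S : Set (Set N)) : Prop where
  lt_succ : ∀ a b : N, a < b + 1 ↔ a ≤ b
  ne : S.Nonempty
  ind : ∀ X ∈ S, (0 : N) ∈ X → (∀ n ∈ X, n + 1 ∈ X) → ∀ n, n ∈ X
  comp : ∀ (φ : Fm) (v : ℕ → N) (V : ℕ → Set N), (∀ j, V j ∈ S) →
    {x | φ.Sat (std S) V (push x v)} ∈ S

variable {S : Set (Set N)} {α : Type u} [Cx N α] {β : Type u} [Cx N β]

theorem D.congr {R R' : α → Prop} (h : D S R) (e : ∀ a, R' a ↔ R a) : D S R' := by
  obtain ⟨φ, V, hV, hφ⟩ := h
  exact ⟨φ, V, hV, fun a => (e a).trans (hφ a)⟩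

theorem D.not {R : α → Prop} (h : D S R) : D S fun a => ¬ R a := by
  obtain ⟨φ, V, hV, hφ⟩ := h
  exact ⟨.neg φ, V, hV, fun a => not_congr (hφ a)⟩

/-- the interleaving of two sequences of sets -/
def mix (V W : ℕ → Set N) (j : ℕ) : Set N := if j % 2 = 0 then V (j / 2) else W (j / 2)

omit [CommSemiring N] [LinearOrder N] in
theorem mix_even (V W : ℕ → Set N) : (fun j => mix V W (2 * j)) = V := by
  funext j; simp [mix]

omit [CommSemiring N] [LinearOrder N] in
theorem mix_odd (V W : ℕ → Set N) : (fun j => mix V W (2 * j + 1)) = W := by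
  funext j
  have h1 : (2 * j + 1) % 2 = 1 := by omega
  have h2 : (2 * j + 1) / 2 = j := by omega
  simp [mix, h1, h2]

theorem D.and {R R' : α → Prop} (h : D S R) (h' : D S R') : D S fun a => R a ∧ R' a := by
  obtain ⟨φ, V, hV, hφ⟩ := h
  obtain ⟨ψ, W, hW, hψ⟩ := h'
  refine ⟨.and (φ.mapS fun j => 2 * j) (ψ.mapS fun j => 2 * j + 1), mix V W, ?_, fun a => ?_⟩
  · intro j
    unfold mix
    split_ifs
    · exact hV _
    · exact hW _
  · simp only [Fm.Sat, Fm.sat_mapS, mix_even, mix_odd]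
    exact and_congr (hφ a) (hψ a)

theorem D.or {R R' : α → Prop} (h : D S R) (h' : D S R') : D S fun a => R a ∨ R' a :=
  (h.not.and h'.not).not.congr fun a => by tauto

theorem D.imp {R R' : α → Prop} (h : D S R) (h' : D S R') : D S fun a => R a → R' a :=
  (h.and h'.not).not.congr fun a => by tauto

theorem D.iff {R R' : α → Prop} (h : D S R) (h' : D S R') : D S fun a => (R a ↔ R' a) :=
  ((h.imp h').and (h'.imp h)).congr fun a => by tauto

theorem D.all {R : N → α → Prop} (h : D S fun p : N × α => R p.1 p.2) :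
    D S fun a => ∀ x, R x a := by
  obtain ⟨φ, V, hV, hφ⟩ := h
  exact ⟨.all φ, V, hV, fun a => forall_congr' fun x => hφ (x, a)⟩

theorem D.ex {R : N → α → Prop} (h : D S fun p : N × α => R p.1 p.2) :
    D S fun a => ∃ x, R x a :=
  (D.all (R := fun x a => ¬ R x a) h.not).not.congr fun a => by simp

/-- substitution of terms -/
theorem D.tsubst {R : β → Prop} (h : D S R) (F : α → β) (σ : ℕ → Tm)
    (hF : ∀ a i, (Cx.val (F a) i : N) = (σ i).val (std S) (Cx.val a)) : D S fun a => R (F a) := by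
  obtain ⟨φ, V, hV, hφ⟩ := h
  refine ⟨φ.subst σ, V, hV, fun a => (hφ (F a)).trans ?_⟩
  rw [Fm.sat_subst]
  have : (Cx.val (F a) : ℕ → N) = fun i => (σ i).val (std S) (Cx.val a) := funext (hF a)
  rw [this]

/-- definable functions -/
def DF (S : Set (Set N)) {α : Type u} [Cx N α] (f : α → N) : Prop :=
  D S fun p : N × α => p.1 = f p.2

/-- weakening -/
theorem D.wk {R : α → Prop} (h : D S R) : D S fun p : N × α => R p.2 :=
  h.tsubst (fun p : N × α => p.2) (fun i => .var (i + 1)) fun _ _ => rfl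

/-- weakening below the first variable -/
theorem D.wk1 {R : N × α → Prop} (h : D S R) : D S fun p : N × N × α => R (p.1, p.2.2) :=
  h.tsubst (fun p : N × N × α => (p.1, p.2.2))
    (fun i => match i with | 0 => .var 0 | i + 1 => .var (i + 2)) fun a i => by
      cases i <;> rfl

theorem DF.wk {f : α → N} (h : DF S f) : DF S fun p : N × α => f p.2 :=
  D.wk1 (R := fun p : N × α => p.1 = f p.2) h

/-- substitution of a definable function for the first variable -/
theorem D.sub {R : N → α → Prop} {f : α → N} (h : D S fun p : N × α => R p.1 p.2)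
    (hf : DF S f) : D S fun a => R (f a) a :=
  (D.ex (R := fun x a => x = f a ∧ R x a) (D.and hf h)).congr fun a => by simp

theorem D.comp1 {R : N → Prop} {f : α → N} (h : D S fun p : N × PUnit.{u + 1} => R p.1)
    (hf : DF S f) : D S fun a => R (f a) :=
  D.sub (R := fun x _ => R x)
    (h.tsubst (fun p : N × α => ((p.1, PUnit.unit) : N × PUnit.{u + 1}))
      (fun i => match i with | 0 => .var 0 | _ + 1 => .zero) fun a i => by cases i <;> rfl) hf

theorem D.comp2 {R : N → N → Prop} {f g : α → N}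
    (h : D S fun p : N × N × PUnit.{u + 1} => R p.1 p.2.1)
    (hf : DF S f) (hg : DF S g) : D S fun a => R (f a) (g a) := by
  have h1 : D S fun p : N × N × α => R p.1 p.2.1 :=
    h.tsubst (fun p : N × N × α => ((p.1, p.2.1, PUnit.unit) : N × N × PUnit.{u + 1}))
      (fun i => match i with | 0 => .var 0 | 1 => .var 1 | _ + 2 => .zero)
      fun a i => by rcases i with _ | _ | i <;> rfl
  exact D.sub (R := fun y a => R (f a) y)
    (D.sub (R := fun x (p : N × α) => R x p.1) h1 hf.wk) hg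

theorem D.comp3 {R : N → N → N → Prop} {f g k : α → N}
    (h : D S fun p : N × N × N × PUnit.{u + 1} => R p.1 p.2.1 p.2.2.1)
    (hf : DF S f) (hg : DF S g) (hk : DF S k) : D S fun a => R (f a) (g a) (k a) := by
  have h1 : D S fun p : N × N × N × α => R p.1 p.2.1 p.2.2.1 :=
    h.tsubst (fun p : N × N × N × α =>
      ((p.1, p.2.1, p.2.2.1, PUnit.unit) : N × N × N × PUnit.{u + 1}))
      (fun i => match i with | 0 => .var 0 | 1 => .var 1 | 2 => .var 2 | _ + 3 => .zero)
      fun a i => by rcases i with _ | _ | _ | i <;> rfl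
  exact D.sub (R := fun z a => R (f a) (g a) z)
    (D.sub (R := fun y (p : N × α) => R (f p.2) y p.1)
      (D.sub (R := fun x (p : N × N × α) => R x p.1 p.2.1) h1 hf.wk.wk) hg.wk) hk

theorem D.comp4 {R : N → N → N → N → Prop} {f g k l : α → N}
    (h : D S fun p : N × N × N × N × PUnit.{u + 1} => R p.1 p.2.1 p.2.2.1 p.2.2.2.1)
    (hf : DF S f) (hg : DF S g) (hk : DF S k) (hl : DF S l) :
    D S fun a => R (f a) (g a) (k a) (l a) := by
  have h1 : D S fun p : N × N × N × N × α => R p.1 p.2.1 p.2.2.1 p.2.2.2.1 :=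
    h.tsubst (fun p : N × N × N × N × α =>
      ((p.1, p.2.1, p.2.2.1, p.2.2.2.1, PUnit.unit) : N × N × N × N × PUnit.{u + 1}))
      (fun i => match i with
        | 0 => .var 0 | 1 => .var 1 | 2 => .var 2 | 3 => .var 3 | _ + 4 => .zero)
      fun a i => by rcases i with _ | _ | _ | _ | i <;> rfl
  exact D.sub (R := fun z a => R (f a) (g a) (k a) z)
    (D.sub (R := fun z (p : N × α) => R (f p.2) (g p.2) z p.1)
      (D.sub (R := fun y (p : N × N × α) => R (f p.2.2) y p.1 p.2.1)
        (D.sub (R := fun x (p : N × N × N × α) => R x p.1 p.2.1 p.2.2.1) h1 hf.wk.wk.wk)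
        hg.wk.wk) hk.wk) hl

/-! ### atoms -/

/-- the first variable -/
theorem DF.v0 (hS : Good S) : DF S fun p : N × α => p.1 := by
  obtain ⟨X, hX⟩ := hS.ne
  exact ⟨.eq (.var 0) (.var 1), fun _ => X, fun _ => hX, fun a => Iff.rfl⟩

theorem DF.v1 (hS : Good S) : DF S fun p : N × N × α => p.2.1 := (DF.v0 hS).wk
theorem DF.v2 (hS : Good S) : DF S fun p : N × N × N × α => p.2.2.1 := (DF.v1 hS).wk
theorem DF.v3 (hS : Good S) : DF S fun p : N × N × N × N × α => p.2.2.2.1 := (DF.v2 hS).wk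
theorem DF.v4 (hS : Good S) : DF S fun p : N × N × N × N × N × α => p.2.2.2.2.1 :=
  (DF.v3 hS).wk
theorem DF.v5 (hS : Good S) : DF S fun p : N × N × N × N × N × N × α => p.2.2.2.2.2.1 :=
  (DF.v4 hS).wk
theorem DF.v6 (hS : Good S) :
    DF S fun p : N × N × N × N × N × N × N × α => p.2.2.2.2.2.2.1 :=
  (DF.v5 hS).wk
theorem DF.v7 (hS : Good S) :
    DF S fun p : N × N × N × N × N × N × N × N × α => p.2.2.2.2.2.2.2.1 :=
  (DF.v6 hS).wk

theorem DF.zero (hS : Good S) : DF S fun _ : α => (0 : N) := by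
  obtain ⟨X, hX⟩ := hS.ne
  exact ⟨.eq (.var 0) .zero, fun _ => X, fun _ => hX, fun a => Iff.rfl⟩

theorem DF.one (hS : Good S) : DF S fun _ : α => (1 : N) := by
  obtain ⟨X, hX⟩ := hS.ne
  exact ⟨.eq (.var 0) .one, fun _ => X, fun _ => hX, fun a => Iff.rfl⟩

theorem DF.const (hS : Good S) (c : N) : DF S fun _ : α => c := by
  obtain ⟨X, hX⟩ := hS.ne
  refine ⟨.mem (.var 0) 0, fun _ => {x | x = c}, fun _ => ?_, fun a => Iff.rfl⟩
  exact hS.comp (.eq (.var 0) (.var 1)) (fun _ => c) (fun _ => X) fun _ => hX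

theorem D.eq {f g : α → N} (hf : DF S f) (hg : DF S g) : D S fun a => f a = g a :=
  (D.ex (R := fun x a => x = f a ∧ x = g a) (D.and hf hg)).congr fun a => by
    constructor
    · intro h; exact ⟨f a, rfl, h⟩
    · rintro ⟨x, h1, h2⟩; exact h1.symm.trans h2

theorem D.mem {X : Set N} (hX : X ∈ S) {f : α → N} (hf : DF S f) :
    D S fun a => f a ∈ X :=
  D.comp1 (R := fun x => x ∈ X) ⟨.mem (.var 0) 0, fun _ => X, fun _ => hX, fun _ => Iff.rfl⟩ hf

theorem D.lt (hS : Good S) {f g : α → N} (hf : DF S f) (hg : DF S g) :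
    D S fun a => f a < g a := by
  obtain ⟨X, hX⟩ := hS.ne
  exact D.comp2 (R := fun x y => x < y)
    ⟨.lt (.var 0) (.var 1), fun _ => X, fun _ => hX, fun a => Iff.rfl⟩ hf hg

theorem D.le (hS : Good S) {f g : α → N} (hf : DF S f) (hg : DF S g) :
    D S fun a => f a ≤ g a :=
  (D.lt hS hg hf).not.congr fun a => by simp

theorem DF.add (hS : Good S) {f g : α → N} (hf : DF S f) (hg : DF S g) :
    DF S fun a => f a + g a := by
  obtain ⟨X, hX⟩ := hS.ne
  exact D.comp3 (R := fun z x y => z = x + y)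
    ⟨.eq (.var 0) (.add (.var 1) (.var 2)), fun _ => X, fun _ => hX, fun a => Iff.rfl⟩
    (DF.v0 hS) hf.wk hg.wk

theorem DF.mul (hS : Good S) {f g : α → N} (hf : DF S f) (hg : DF S g) :
    DF S fun a => f a * g a := by
  obtain ⟨X, hX⟩ := hS.ne
  exact D.comp3 (R := fun z x y => z = x * y)
    ⟨.eq (.var 0) (.mul (.var 1) (.var 2)), fun _ => X, fun _ => hX, fun a => Iff.rfl⟩
    (DF.v0 hS) hf.wk hg.wk

theorem D.const (hS : Good S) (p : Prop) : D S fun _ : α => p := by
  by_cases h : p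
  · exact (D.eq (DF.zero hS) (DF.zero hS)).congr fun a => by simp [h]
  · exact (D.eq (DF.zero hS) (DF.zero hS)).not.congr fun a => by simp [h]

/-- bounded quantifiers -/
theorem D.ball (hS : Good S) {R : N → α → Prop} {f : α → N}
    (h : D S fun p : N × α => R p.1 p.2) (hf : DF S f) : D S fun a => ∀ x < f a, R x a :=
  D.all (R := fun x a => x < f a → R x a) ((D.lt hS (DF.v0 hS) hf.wk).imp h)

theorem D.bex (hS : Good S) {R : N → α → Prop} {f : α → N}
    (h : D S fun p : N × α => R p.1 p.2) (hf : DF S f) : D S fun a => ∃ x < f a, R x a :=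
  D.ex (R := fun x a => x < f a ∧ R x a) ((D.lt hS (DF.v0 hS) hf.wk).and h)

theorem D.dvd (hS : Good S) {f g : α → N} (hf : DF S f) (hg : DF S g) :
    D S fun a => f a ∣ g a :=
  D.comp2 (R := fun x y => x ∣ y)
    (D.ex (R := fun c (p : N × N × PUnit.{u + 1}) => p.2.1 = p.1 * c)
      (D.eq (DF.v2 hS) (DF.mul hS (DF.v1 hS) (DF.v0 hS)))) hf hg

/-! ### comprehension and induction -/

theorem D.set (hS : Good S) {R : N → α → Prop} (h : D S fun p : N × α => R p.1 p.2) (a : α) :
    {x | R x a} ∈ S := by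
  obtain ⟨φ, V, hV, hφ⟩ := h
  have := hS.comp φ (Cx.val a) V hV
  convert this using 1
  ext x
  exact hφ (x, a)

theorem D.set0 (hS : Good S) {R : N → Prop} (h : D S fun p : N × PUnit.{u + 1} => R p.1) :
    {x | R x} ∈ S :=
  D.set hS (R := fun x (_ : PUnit.{u + 1}) => R x) h PUnit.unit

theorem D.induct (hS : Good S) {R : N → Prop} (h : D S fun p : N × PUnit.{u + 1} => R p.1)
    (h0 : R 0) (hs : ∀ n, R n → R (n + 1)) (n : N) : R n :=
  hS.ind {x | R x} (D.set0 hS h) h0 (fun n hn => hs n hn) n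

end Pool.Agent.Work.MP_69fea5_lc.H2
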