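import Mathlib

/-!
Second-order arithmetic: structures, arithmetical formulas, models of ACA_0.
-/

set_option autoImplicit false

namespace Pool.Agent.Work.MP_69fea5_lc.H2

universe u

/-- Number terms of the language of second-order arithmetic (de Bruijn number variables). -/
inductive Tm : Type
  | var : ℕ → Tm
  | zero : Tm
  | one : Tm
  | add : Tm → Tm → Tm
  | mul : Tm → Tm → Tm

/-- Arithmetical formulas (no set quantifiers) with number variables (de Bruijn indices, bound by
`all`) and free set variables `X_j`; `mem t j` is `t ∈ X_j`. -/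
inductive Fm : Type
  | eq : Tm → Tm → Fm
  | lt : Tm → Tm → Fm
  | mem : Tm → ℕ → Fm
  | neg : Fm → Fm
  | and : Fm → Fm → Fm
  | all : Fm → Fm

/-- A structure for the language of second-order arithmetic with number domain `N`:
`0`, `1`, `+`, `·`, `<` on `N` and a family of subsets of `N`, the range of the set variables. -/
structure L2 (N : Type u) where
  zero : N
  one : N
  add : N → N → N
  mul : N → N → N
  lt : N → N → Prop
  sets : Set (Set N)

variable {N : Type u}

/-- The value of a term. -/
def Tm.val (M : L2 N) (v : ℕ → N) : Tm → N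
  | .var i => v i
  | .zero => M.zero
  | .one => M.one
  | .add s t => M.add (s.val M v) (t.val M v)
  | .mul s t => M.mul (s.val M v) (t.val M v)

/-- The valuation which gives the value `x` to variable `0` and `v i` to variable `i + 1`. -/
def push (x : N) (v : ℕ → N) : ℕ → N
  | 0 => x
  | i + 1 => v i

/-- Satisfaction of an arithmetical formula; `V j` is the value of the set variable `X_j`. -/
def Fm.Sat (M : L2 N) (V : ℕ → Set N) : Fm → (ℕ → N) → Prop
  | .eq s t, v => s.val M v = t.val M v
  | .lt s t, v => M.lt (s.val M v) (t.val M v)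
  | .mem t j, v => t.val M v ∈ V j
  | .neg φ, v => ¬ φ.Sat M V v
  | .and φ ψ, v => φ.Sat M V v ∧ ψ.Sat M V v
  | .all φ, v => ∀ x, φ.Sat M V (push x v)

/-- `M` is a model of `ACA_0`: the basic axioms, the induction axiom for sets and arithmetical
comprehension with number and set parameters. -/
structure IsModelACA0 (M : L2 N) : Prop where
  succ_ne_zero : ∀ n, M.add n M.one ≠ M.zero
  succ_inj : ∀ m n, M.add m M.one = M.add n M.one → m = n
  add_zero : ∀ m, M.add m M.zero = m
  add_succ : ∀ m n, M.add m (M.add n M.one) = M.add (M.add m n) M.one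
  mul_zero : ∀ m, M.mul m M.zero = M.zero
  mul_succ : ∀ m n, M.mul m (M.add n M.one) = M.add (M.mul m n) m
  not_lt_zero : ∀ m, ¬ M.lt m M.zero
  lt_succ : ∀ m n, M.lt m (M.add n M.one) ↔ (M.lt m n ∨ m = n)
  induction : ∀ X ∈ M.sets, M.zero ∈ X → (∀ n ∈ X, M.add n M.one ∈ X) → ∀ n, n ∈ X
  comprehension : ∀ (φ : Fm) (v : ℕ → N) (V : ℕ → Set N), (∀ j, V j ∈ M.sets) →
    {x | φ.Sat M V (push x v)} ∈ M.sets

end Pool.Agent.Work.MP_69fea5_lc.H2
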