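import Pool.Agent.Work.MP_69fea5_lc.H2.Basic

/-!
From good families of sets back to models of `ACA_0`.
-/

set_option autoImplicit false

namespace Pool.Agent.Work.MP_69fea5_lc.H2

universe u

theorem final_of (hALG : S_ALG.{u}) (hMAIN : S_MAIN.{u}) (N : Type u) (M : L2 N)
    (hM : IsModelACA0 M) (C : Set N) (hC : C ∈ M.sets) :
    ∃ X ∈ M.sets, (∀ m, ∃ x ∈ X, M.lt m x) ∧ M.zero ∉ X ∧
      ((∀ x ∈ X, x ∈ C ∧ ∀ y ∈ X, x ≠ y → M.add x y ∈ C) ∨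
        (∀ x ∈ X, x ∉ C ∧ ∀ y ∈ X, x ≠ y → M.add x y ∉ C)) := by
  obtain ⟨i1, i2, i3, i4, hMS, hG⟩ := hALG N M hM ⟨C, hC⟩
  obtain ⟨r, X, hX, hU, hs⟩ := hMAIN N M.sets hG C hC
  have hlt : ∀ a b : N, M.lt a b ↔ a < b := by
    intro a b; rw [hMS]; exact Iff.rfl
  have hadd : ∀ a b : N, M.add a b = a + b := by
    intro a b; rw [hMS]; rfl
  have hzero : M.zero = 0 := by rw [hMS]; rfl
  refine ⟨X, hX, fun m => ?_, fun h0 => ?_, ?_⟩
  · obtain ⟨x, hx, hmx⟩ := hU (m + 1)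
    exact ⟨x, hx, (hlt _ _).2 (lt_of_lt_of_le (Good.lt_succ_self m) hmx)⟩
  · rw [hzero] at h0
    exact lt_irrefl _ (hs 0 h0).1
  · have key : ∀ x ∈ X, (x ∈ C ↔ r) ∧ ∀ y ∈ X, x ≠ y → (M.add x y ∈ C ↔ r) := by
      intro x hx
      refine ⟨(hs x hx).2.1, fun y hy hxy => ?_⟩
      rw [hadd]
      rcases lt_or_gt_of_ne hxy with h | h
      · rw [add_comm]; exact (hs y hy).2.2 x hx h
      · exact (hs x hx).2.2 y hy h
    by_cases hr : r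
    · exact Or.inl fun x hx => ⟨(key x hx).1.2 hr, fun y hy hxy => ((key x hx).2 y hy hxy).2 hr⟩
    · exact Or.inr fun x hx => ⟨fun h => hr ((key x hx).1.1 h),
        fun y hy hxy h => hr (((key x hx).2 y hy hxy).1 h)⟩

end Pool.Agent.Work.MP_69fea5_lc.H2
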