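import Pool.Agent.Work.MP_69fea5_lc.H2.Basic

/-!
Item ALG: a model of `ACA_0` is a discretely ordered semiring with a good family of sets.
-/

set_option autoImplicit false

namespace Pool.Agent.Work.MP_69fea5_lc.H2

universe u

namespace I_ALG

variable {N : Type u} {M : L2 N}

theorem ind' (hM : IsModelACA0 M) (hne : M.sets.Nonempty) (φ : Fm) (v : ℕ → N) (P : N → Prop)
    (hP : ∀ V n, φ.Sat M V (push n v) ↔ P n) (h0 : P M.zero)
    (hs : ∀ n, P n → P (M.add n M.one)) (n : N) : P n := by
  obtain ⟨X, hX⟩ := hne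
  have hc := hM.comprehension φ v (fun _ => X) (fun _ => hX)
  have := hM.induction _ hc ((hP _ _).2 h0) (fun m hm => (hP _ _).2 (hs m ((hP _ _).1 hm))) n
  exact (hP _ _).1 this

theorem zero_add (hM : IsModelACA0 M) (hne : M.sets.Nonempty) (n : N) :
    M.add M.zero n = n := by
  refine ind' hM hne (.eq (.add .zero (.var 0)) (.var 0)) (fun _ => M.zero)
    (fun n => M.add M.zero n = n) (fun _ _ => Iff.rfl) (hM.add_zero _) (fun n h => ?_) n
  show M.add M.zero (M.add n M.one) = M.add n M.one
  rw [hM.add_succ, h]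

theorem succ_add (hM : IsModelACA0 M) (hne : M.sets.Nonempty) (m n : N) :
    M.add (M.add m M.one) n = M.add (M.add m n) M.one := by
  refine ind' hM hne (.eq (.add (.add (.var 1) .one) (.var 0))
    (.add (.add (.var 1) (.var 0)) .one)) (fun _ => m)
    (fun n => M.add (M.add m M.one) n = M.add (M.add m n) M.one) (fun _ _ => Iff.rfl)
    ?_ (fun n h => ?_) n
  · show M.add (M.add m M.one) M.zero = M.add (M.add m M.zero) M.one
    rw [hM.add_zero, hM.add_zero]
  · show M.add (M.add m M.one) (M.add n M.one) = M.add (M.add m (M.add n M.one)) M.one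
    rw [hM.add_succ, hM.add_succ, h]

theorem add_comm (hM : IsModelACA0 M) (hne : M.sets.Nonempty) (m n : N) :
    M.add m n = M.add n m := by
  refine ind' hM hne (.eq (.add (.var 1) (.var 0)) (.add (.var 0) (.var 1))) (fun _ => m)
    (fun n => M.add m n = M.add n m) (fun _ _ => Iff.rfl) ?_ (fun n h => ?_) n
  · show M.add m M.zero = M.add M.zero m
    rw [hM.add_zero, zero_add hM hne]
  · show M.add m (M.add n M.one) = M.add (M.add n M.one) m
    rw [hM.add_succ, succ_add hM hne, h]

theorem add_assoc (hM : IsModelACA0 M) (hne : M.sets.Nonempty) (a b c : N) :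
    M.add (M.add a b) c = M.add a (M.add b c) := by
  refine ind' hM hne (.eq (.add (.add (.var 1) (.var 2)) (.var 0))
    (.add (.var 1) (.add (.var 2) (.var 0)))) (push a (fun _ => b))
    (fun c => M.add (M.add a b) c = M.add a (M.add b c)) (fun _ _ => Iff.rfl) ?_ (fun n h => ?_) c
  · show M.add (M.add a b) M.zero = M.add a (M.add b M.zero)
    rw [hM.add_zero, hM.add_zero]
  · show M.add (M.add a b) (M.add n M.one) = M.add a (M.add b (M.add n M.one))
    rw [hM.add_succ, hM.add_succ, hM.add_succ, h]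

theorem zero_mul (hM : IsModelACA0 M) (hne : M.sets.Nonempty) (n : N) :
    M.mul M.zero n = M.zero := by
  refine ind' hM hne (.eq (.mul .zero (.var 0)) .zero) (fun _ => M.zero)
    (fun n => M.mul M.zero n = M.zero) (fun _ _ => Iff.rfl) (hM.mul_zero _) (fun n h => ?_) n
  show M.mul M.zero (M.add n M.one) = M.zero
  rw [hM.mul_succ, h, hM.add_zero]

theorem succ_mul (hM : IsModelACA0 M) (hne : M.sets.Nonempty) (m n : N) :
    M.mul (M.add m M.one) n = M.add (M.mul m n) n := by
  refine ind' hM hne (.eq (.mul (.add (.var 1) .one) (.var 0))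
    (.add (.mul (.var 1) (.var 0)) (.var 0))) (fun _ => m)
    (fun n => M.mul (M.add m M.one) n = M.add (M.mul m n) n) (fun _ _ => Iff.rfl)
    ?_ (fun n h => ?_) n
  · show M.mul (M.add m M.one) M.zero = M.add (M.mul m M.zero) M.zero
    rw [hM.mul_zero, hM.mul_zero, hM.add_zero]
  · show M.mul (M.add m M.one) (M.add n M.one) = M.add (M.mul m (M.add n M.one)) (M.add n M.one)
    rw [hM.mul_succ, hM.mul_succ, h, hM.add_succ, hM.add_succ,
      add_assoc hM hne (M.mul m n) n m, add_assoc hM hne (M.mul m n) m n,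
      add_comm hM hne n m]

theorem mul_comm (hM : IsModelACA0 M) (hne : M.sets.Nonempty) (m n : N) :
    M.mul m n = M.mul n m := by
  refine ind' hM hne (.eq (.mul (.var 1) (.var 0)) (.mul (.var 0) (.var 1))) (fun _ => m)
    (fun n => M.mul m n = M.mul n m) (fun _ _ => Iff.rfl) ?_ (fun n h => ?_) n
  · show M.mul m M.zero = M.mul M.zero m
    rw [hM.mul_zero, zero_mul hM hne]
  · show M.mul m (M.add n M.one) = M.mul (M.add n M.one) m
    rw [hM.mul_succ, succ_mul hM hne, h]

theorem mul_add (hM : IsModelACA0 M) (hne : M.sets.Nonempty) (a b c : N) :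
    M.mul a (M.add b c) = M.add (M.mul a b) (M.mul a c) := by
  refine ind' hM hne (.eq (.mul (.var 1) (.add (.var 2) (.var 0)))
    (.add (.mul (.var 1) (.var 2)) (.mul (.var 1) (.var 0)))) (push a (fun _ => b))
    (fun c => M.mul a (M.add b c) = M.add (M.mul a b) (M.mul a c)) (fun _ _ => Iff.rfl)
    ?_ (fun n h => ?_) c
  · show M.mul a (M.add b M.zero) = M.add (M.mul a b) (M.mul a M.zero)
    rw [hM.add_zero, hM.mul_zero, hM.add_zero]
  · show M.mul a (M.add b (M.add n M.one)) = M.add (M.mul a b) (M.mul a (M.add n M.one))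
    rw [hM.add_succ, hM.mul_succ, hM.mul_succ, h, add_assoc hM hne]

theorem mul_assoc (hM : IsModelACA0 M) (hne : M.sets.Nonempty) (a b c : N) :
    M.mul (M.mul a b) c = M.mul a (M.mul b c) := by
  refine ind' hM hne (.eq (.mul (.mul (.var 1) (.var 2)) (.var 0))
    (.mul (.var 1) (.mul (.var 2) (.var 0)))) (push a (fun _ => b))
    (fun c => M.mul (M.mul a b) c = M.mul a (M.mul b c)) (fun _ _ => Iff.rfl) ?_ (fun n h => ?_) c
  · show M.mul (M.mul a b) M.zero = M.mul a (M.mul b M.zero)
    rw [hM.mul_zero, hM.mul_zero, hM.mul_zero]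
  · show M.mul (M.mul a b) (M.add n M.one) = M.mul a (M.mul b (M.add n M.one))
    rw [hM.mul_succ, hM.mul_succ, h, mul_add hM hne]

theorem mul_one (hM : IsModelACA0 M) (hne : M.sets.Nonempty) (a : N) :
    M.mul a M.one = a := by
  have h := hM.mul_succ a M.zero
  rwa [zero_add hM hne, hM.mul_zero, zero_add hM hne] at h

theorem one_mul (hM : IsModelACA0 M) (hne : M.sets.Nonempty) (a : N) :
    M.mul M.one a = a := by
  rw [mul_comm hM hne, mul_one hM hne]

theorem cases_succ (hM : IsModelACA0 M) (hne : M.sets.Nonempty) (n : N) :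
    n = M.zero ∨ ∃ k, n = M.add k M.one := by
  refine ind' hM hne (.neg (.and (.neg (.eq (.var 0) .zero))
    (.all (.neg (.eq (.var 1) (.add (.var 0) .one)))))) (fun _ => M.zero)
    (fun n => n = M.zero ∨ ∃ k, n = M.add k M.one) (fun V n => ?_) (Or.inl rfl)
    (fun n _ => Or.inr ⟨n, rfl⟩) n
  show ¬ (¬ (n = M.zero) ∧ ∀ k, ¬ (n = M.add k M.one)) ↔ _
  constructor
  · intro h
    by_contra h'
    push Not at h'
    exact h h'
  · rintro (h | ⟨k, hk⟩) ⟨h1, h2⟩
    · exact h1 h
    · exact h2 k hk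

theorem add_right_cancel (hM : IsModelACA0 M) (hne : M.sets.Nonempty) {a b : N} (c : N) :
    M.add a c = M.add b c → a = b := by
  refine ind' hM hne (.neg (.and (.eq (.add (.var 1) (.var 0)) (.add (.var 2) (.var 0)))
    (.neg (.eq (.var 1) (.var 2))))) (push a (fun _ => b))
    (fun c => M.add a c = M.add b c → a = b) (fun V n => ?_) ?_ (fun n h => ?_) c
  · show ¬ (M.add a n = M.add b n ∧ ¬ (a = b)) ↔ _
    tauto
  · show M.add a M.zero = M.add b M.zero → a = b
    rw [hM.add_zero, hM.add_zero]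
    exact id
  · show M.add a (M.add n M.one) = M.add b (M.add n M.one) → a = b
    rw [hM.add_succ, hM.add_succ]
    exact fun h' => h (hM.succ_inj _ _ h')

theorem add_left_cancel (hM : IsModelACA0 M) (hne : M.sets.Nonempty) {a b : N} (c : N)
    (h : M.add c a = M.add c b) : a = b := by
  rw [add_comm hM hne c a, add_comm hM hne c b] at h
  exact add_right_cancel hM hne c h

theorem lt_add (hM : IsModelACA0 M) (hne : M.sets.Nonempty) (m k : N) :
    M.lt m (M.add m (M.add k M.one)) := by
  refine ind' hM hne (.lt (.var 1) (.add (.var 1) (.add (.var 0) .one))) (fun _ => m)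
    (fun k => M.lt m (M.add m (M.add k M.one))) (fun _ _ => Iff.rfl) ?_ (fun n h => ?_) k
  · show M.lt m (M.add m (M.add M.zero M.one))
    rw [zero_add hM hne, hM.lt_succ]
    exact Or.inr rfl
  · show M.lt m (M.add m (M.add (M.add n M.one) M.one))
    rw [hM.add_succ, hM.lt_succ]
    exact Or.inl h

theorem exists_of_lt (hM : IsModelACA0 M) (hne : M.sets.Nonempty) (m n : N) :
    M.lt m n → ∃ k, n = M.add m (M.add k M.one) := by
  refine ind' hM hne (.neg (.and (.lt (.var 1) (.var 0))
    (.all (.neg (.eq (.var 1) (.add (.var 2) (.add (.var 0) .one))))))) (fun _ => m)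
    (fun n => M.lt m n → ∃ k, n = M.add m (M.add k M.one)) (fun V n => ?_) ?_ (fun n h => ?_) n
  · show ¬ (M.lt m n ∧ ∀ k, ¬ (n = M.add m (M.add k M.one))) ↔ _
    constructor
    · intro h h1
      by_contra h'
      push Not at h'
      exact h ⟨h1, h'⟩
    · rintro h ⟨h1, h2⟩
      obtain ⟨k, hk⟩ := h h1
      exact h2 k hk
  · exact fun h => absurd h (hM.not_lt_zero _)
  · intro h1
    rcases (hM.lt_succ _ _).1 h1 with h1 | h1
    · obtain ⟨k, hk⟩ := h h1
      exact ⟨M.add k M.one, by rw [hM.add_succ m, ← hk]⟩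
    · exact ⟨M.zero, by rw [zero_add hM hne, h1]⟩

theorem lt_iff (hM : IsModelACA0 M) (hne : M.sets.Nonempty) (m n : N) :
    M.lt m n ↔ ∃ k, n = M.add m (M.add k M.one) :=
  ⟨exists_of_lt hM hne m n, by rintro ⟨k, rfl⟩; exact lt_add hM hne m k⟩

theorem irrefl (hM : IsModelACA0 M) (hne : M.sets.Nonempty) (m : N) : ¬ M.lt m m := by
  intro h
  obtain ⟨k, hk⟩ := exists_of_lt hM hne m m h
  have h1 : M.add m M.zero = M.add m (M.add k M.one) := by rw [hM.add_zero]; exact hk
  exact hM.succ_ne_zero k (add_left_cancel hM hne m h1).symm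

theorem trans (hM : IsModelACA0 M) (hne : M.sets.Nonempty) {a b c : N} (h1 : M.lt a b)
    (h2 : M.lt b c) : M.lt a c := by
  obtain ⟨k, rfl⟩ := exists_of_lt hM hne _ _ h1
  obtain ⟨j, rfl⟩ := exists_of_lt hM hne _ _ h2
  rw [add_assoc hM hne, hM.add_succ (M.add k M.one)]
  exact lt_add hM hne _ _

theorem trichotomy (hM : IsModelACA0 M) (hne : M.sets.Nonempty) (m n : N) :
    M.lt m n ∨ m = n ∨ M.lt n m := by
  refine ind' hM hne (.neg (.and (.neg (.lt (.var 1) (.var 0))) (.and
    (.neg (.eq (.var 1) (.var 0))) (.neg (.lt (.var 0) (.var 1)))))) (fun _ => m)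
    (fun n => M.lt m n ∨ m = n ∨ M.lt n m) (fun V n => ?_) ?_ (fun n h => ?_) n
  · show ¬ (¬ (M.lt m n) ∧ ¬ (m = n) ∧ ¬ (M.lt n m)) ↔ _
    tauto
  · rcases cases_succ hM hne m with h | ⟨k, hk⟩
    · exact Or.inr (Or.inl h)
    · refine Or.inr (Or.inr ?_)
      have := lt_add hM hne M.zero k
      rwa [zero_add hM hne, ← hk] at this
  · rcases h with h | h | h
    · exact Or.inl ((hM.lt_succ _ _).2 (Or.inl h))
    · exact Or.inl ((hM.lt_succ _ _).2 (Or.inr h))
    · obtain ⟨k, hk⟩ := exists_of_lt hM hne _ _ h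
      rcases cases_succ hM hne k with h0 | ⟨j, hj⟩
      · refine Or.inr (Or.inl ?_)
        rw [hk, h0, zero_add hM hne]
      · refine Or.inr (Or.inr ?_)
        have := lt_add hM hne (M.add n M.one) j
        rwa [succ_add hM hne, ← hM.add_succ n, ← hj, ← hk] at this

theorem le_iff (hM : IsModelACA0 M) (hne : M.sets.Nonempty) (m n : N) :
    (M.lt m n ∨ m = n) ↔ ∃ k, n = M.add m k := by
  constructor
  · rintro (h | h)
    · obtain ⟨k, hk⟩ := exists_of_lt hM hne _ _ h
      exact ⟨_, hk⟩
    · exact ⟨M.zero, by rw [hM.add_zero, h]⟩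
  · rintro ⟨k, rfl⟩
    rcases cases_succ hM hne k with h | ⟨j, hj⟩
    · right; rw [h, hM.add_zero]
    · left; rw [hj]; exact lt_add hM hne m j

/-- the semiring of a model -/
abbrev semi (hM : IsModelACA0 M) (hne : M.sets.Nonempty) : CommSemiring N where
  add := M.add
  zero := M.zero
  mul := M.mul
  one := M.one
  add_assoc := add_assoc hM hne
  zero_add := zero_add hM hne
  add_zero := hM.add_zero
  add_comm := add_comm hM hne
  left_distrib := mul_add hM hne
  right_distrib := fun a b c => by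
    show M.mul (M.add a b) c = M.add (M.mul a c) (M.mul b c)
    rw [mul_comm hM hne, mul_add hM hne, mul_comm hM hne c a, mul_comm hM hne c b]
  zero_mul := zero_mul hM hne
  mul_zero := hM.mul_zero
  mul_assoc := mul_assoc hM hne
  one_mul := one_mul hM hne
  mul_one := mul_one hM hne
  mul_comm := mul_comm hM hne
  nsmul := @nsmulRec N ⟨M.zero⟩ ⟨M.add⟩

/-- the order of a model -/
noncomputable abbrev ord (hM : IsModelACA0 M) (hne : M.sets.Nonempty) : LinearOrder N where
  le := fun a b => M.lt a b ∨ a = b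
  lt := M.lt
  le_refl := fun a => Or.inr rfl
  le_trans := by
    rintro a b c (h1 | h1) (h2 | h2)
    · exact Or.inl (trans hM hne h1 h2)
    · exact Or.inl (h2 ▸ h1)
    · exact Or.inl (h1 ▸ h2)
    · exact Or.inr (h1.trans h2)
  lt_iff_le_not_ge := by
    intro a b
    constructor
    · intro h
      refine ⟨Or.inl h, ?_⟩
      rintro (h' | h')
      · exact irrefl hM hne _ (trans hM hne h h')
      · exact irrefl hM hne b (h' ▸ h)
    · rintro ⟨h | h, h'⟩
      · exact h
      · exact absurd (Or.inr h.symm) h'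
  le_antisymm := by
    rintro a b (h1 | h1) h2
    · rcases h2 with h2 | h2
      · exact absurd (trans hM hne h1 h2) (irrefl hM hne _)
      · exact h2.symm
    · exact h1
  le_total := by
    intro a b
    rcases trichotomy hM hne a b with h | h | h
    · exact Or.inl (Or.inl h)
    · exact Or.inl (Or.inr h)
    · exact Or.inr (Or.inl h)
  toDecidableLE := Classical.decRel _

end I_ALG

open I_ALG in
theorem ALG_pf : S_ALG.{u} := by
  intro N M hM hne
  let i1 : CommSemiring N := semi hM hne
  let i2 : LinearOrder N := ord hM hne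
  have hle : ∀ a b : N, a ≤ b ↔ ∃ k, b = a + k := fun a b => le_iff hM hne a b
  have hlt : ∀ a b : N, a < b ↔ ∃ k, b = a + (k + 1) := fun a b => lt_iff hM hne a b
  have hcan : ∀ a b c : N, c + a = c + b → a = b := fun a b c h => add_left_cancel hM hne c h
  have hpos : ∀ a : N, 0 < a → ∃ k, a = k + 1 := by
    intro a h
    obtain ⟨k, hk⟩ := (hlt _ _).1 h
    exact ⟨k, by rw [hk, _root_.zero_add]⟩
  have hml : ∀ a : N, 0 < a → ∀ b c : N, b < c → a * b < a * c := by
    intro a ha b c hbc
    obtain ⟨k, rfl⟩ := hpos a ha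
    obtain ⟨j, rfl⟩ := (hlt _ _).1 hbc
    exact (hlt _ _).2 ⟨(k * j + k + j : N), by ring⟩
  have hso : IsStrictOrderedRing N :=
    { add_le_add_left := by
        intro a b h c
        obtain ⟨k, rfl⟩ := (hle _ _).1 h
        exact (hle _ _).2 ⟨k, by ring⟩
      le_of_add_le_add_left := by
        intro a b c h
        obtain ⟨k, hk⟩ := (hle _ _).1 h
        exact (hle _ _).2 ⟨k, hcan _ _ a (by rw [hk]; ring)⟩
      zero_le_one := (hle _ _).2 ⟨1, by ring⟩
      exists_pair_ne := ⟨0, 1, fun h => hM.succ_ne_zero M.zero (by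
        have h1 : (0 : N) + 1 = 0 := by rw [_root_.zero_add]; exact h.symm
        exact h1)⟩
      mul_lt_mul_of_pos_left := fun a ha b c hbc => hml a ha b c hbc
      mul_lt_mul_of_pos_right := fun a ha b c hbc => by
        have := hml a ha b c hbc
        rwa [_root_.mul_comm a b, _root_.mul_comm a c] at this }
  refine ⟨i1, i2, hso, ?_, ?_, ?_⟩
  · exact
      { exists_add_of_le := fun {a b} h => (hle _ _).1 h
        le_add_self := fun a b => (hle _ _).2 ⟨b, _root_.add_comm _ _⟩
        le_self_add := fun a b => (hle _ _).2 ⟨b, rfl⟩ }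
  · rfl
  · exact
      { lt_succ := fun a b => hM.lt_succ a b
        ne := hne
        ind := hM.induction
        comp := hM.comprehension }

end Pool.Agent.Work.MP_69fea5_lc.H2
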