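import Pool.Agent.Work.MP_69fea5_lc.H2.Basic

/-!
Item ALLC: if blocked words are dense, then every word extends to a word which is blocked at
all places of the original word.
-/

set_option autoImplicit false

namespace Pool.Agent.Work.MP_69fea5_lc.H2

universe u

theorem ALLC_pf (hM : S_MONO.{u}) : S_ALLC.{u} := by
  intro N _ _ _ _ S hS C hC Y hY hBD p l
  have key : ∀ n : N, n ≤ l → ∃ p' l' d, Ext Y p' l' d p l ∧ ∀ i < n, Blk C Y p' l' (i + d) := by
    refine D.induct hS (R := fun n => n ≤ l → ∃ p' l' d, Ext Y p' l' d p l ∧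
      ∀ i < n, Blk C Y p' l' (i + d)) ?_ ?_ ?_
    · refine D.imp (D.le hS (DF.v0 hS) (DF.const hS l)) ?_
      refine D.ex (R := fun p' (a : N × PUnit.{u + 1}) => ∃ l' d, H2.Ext Y p' l' d p l ∧
        ∀ i < a.1, H2.Blk C Y p' l' (i + d)) ?_
      refine D.ex (R := fun l' (a : N × N × PUnit.{u + 1}) => ∃ d, H2.Ext Y a.1 l' d p l ∧
        ∀ i < a.2.1, H2.Blk C Y a.1 l' (i + d)) ?_
      refine D.ex (R := fun d (a : N × N × N × PUnit.{u + 1}) => H2.Ext Y a.2.1 a.1 d p l ∧
        ∀ i < a.2.2.1, H2.Blk C Y a.2.1 a.1 (i + d)) ?_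
      refine D.and (D.Ext hS hY (DF.v2 hS) (DF.v1 hS) (DF.v0 hS) (DF.const hS p)
        (DF.const hS l)) ?_
      refine D.ball hS (R := fun i (a : N × N × N × N × PUnit.{u + 1}) =>
        H2.Blk C Y a.2.2.1 a.2.1 (i + a.1)) ?_ (DF.v3 hS)
      exact D.Blk hS hC hY (DF.v3 hS) (DF.v2 hS) (DF.add hS (DF.v0 hS) (DF.v1 hS))
    · intro _
      exact ⟨p, l, 0, Ext.refl Y p l, fun i hi => absurd hi (not_lt.2 zero_le)⟩
    · intro n ih hn
      have hnl : n < l := (Good.lt_succ_self n).trans_le hn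
      obtain ⟨p', l', d, hext, hblk⟩ := ih hnl.le
      have hnd : ∀ i, i < l → i + d < l' := fun i hi => by
        have h1 : i + d < l + d := by gcongr
        rw [add_comm l d] at h1
        exact h1.trans_le hext.1
      obtain ⟨p'', l'', d', hext', hblk'⟩ := hBD p' l' (n + d) (hnd n hnl)
      refine ⟨p'', l'', d + d', hext'.trans hext, fun i hi => ?_⟩
      rw [← add_assoc]
      rcases (hS.le_of_lt_succ hi).lt_or_eq with h1 | h1
      · exact hM N S hS C Y p'' l'' d' p' l' (i + d) hext' (hnd i (h1.trans hnl)) (hblk i h1)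
      · rw [h1]
        exact hblk'
  exact key l le_rfl

end Pool.Agent.Work.MP_69fea5_lc.H2
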