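import Pool.Agent.Work.MP_69fea5_lc.H2.Basic

/-! Item BKA of block [69fea5 H2]. -/

set_option autoImplicit false

namespace Pool.Agent.Work.MP_69fea5_lc.H2

universe u

theorem BKA_pf : S_BKA.{u} := by
  intro N _ _ _ _ S hS C hC A hA hF i
  refine D.induct hS (R := fun i => Free C (Below A i)) ?_ ?_ ?_ i
  · refine D.Free hS hC (F := fun p : N × PUnit.{u + 1} => Below A p.1) ?_
    exact (D.mem hA (DF.v0 hS)).and (D.lt hS (DF.v0 hS) (DF.v1 hS))
  · intro n z
    refine ⟨z, le_rfl, ?_⟩
    intro p l j h
    exact absurd h.2 (not_lt.2 zero_le)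
  · intro n ih
    by_cases hn : n ∈ A
    · have h1 := ((hF n).1 hn).2
      have h2 : Below A (n + 1) = {k | (k ∈ A ∧ k < n) ∨ k = n} := by
        ext k
        constructor
        · rintro ⟨hk, hk'⟩
          rcases (hS.le_of_lt_succ hk').lt_or_eq with h | h
          · exact Or.inl ⟨hk, h⟩
          · exact Or.inr h
        · rintro (⟨hk, hk'⟩ | hk)
          · exact ⟨hk, hk'.trans (Good.lt_succ_self n)⟩
          · subst hk
            exact ⟨hn, Good.lt_succ_self k⟩
      rw [h2]
      exact h1
    · have h2 : Below A (n + 1) = Below A n := by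
        ext k
        constructor
        · rintro ⟨hk, hk'⟩
          rcases (hS.le_of_lt_succ hk').lt_or_eq with h | h
          · exact ⟨hk, h⟩
          · exact absurd (h ▸ hk) hn
        · rintro ⟨hk, hk'⟩
          exact ⟨hk, hk'.trans (Good.lt_succ_self n)⟩
      rw [h2]
      exact ih

end Pool.Agent.Work.MP_69fea5_lc.H2
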