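import Pool.Agent.Work.MP_69fea5_lc.H2.Basic

/-!
BKB: a word that is not forbidden occurs with bounded gaps in the windows that avoid the smaller
forbidden words.
-/

set_option autoImplicit false

namespace Pool.Agent.Work.MP_69fea5_lc.H2

universe u

theorem BKB_pf : S_BKB.{u} := by
  intro N _ _ _ _ S hS C A hF p l hpl
  have h1 : ¬ Free C {k | (k ∈ A ∧ k < pr p l) ∨ k = pr p l} := fun hfree =>
    hpl ((hF (pr p l)).2 ⟨⟨p, l, rfl⟩, hfree⟩)
  unfold Free at h1
  push Not at h1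
  obtain ⟨n, z, hz⟩ := h1
  refine ⟨n, z, fun x hx hav => ?_⟩
  have h2 := hz x hx
  unfold Av at h2
  push Not at h2
  obtain ⟨p', l', j, hmem, hjl, hW⟩ := h2
  rcases hmem with hb | he
  · exact absurd hW (hav p' l' j hb hjl)
  · obtain ⟨rfl, rfl⟩ := pr_inj hS he
    exact ⟨j, hjl, hW⟩

end Pool.Agent.Work.MP_69fea5_lc.H2
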