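import Pool.Agent.Work.MP_69fea5_lc.H2.Basic

set_option autoImplicit false
set_option linter.unusedSectionVars false

namespace Pool.Agent.Work.MP_69fea5_lc.H2

universe u

namespace I_BKC

variable {N : Type u} [CommSemiring N] [LinearOrder N]

theorem av_anti {C F F' : Set N} (h : F ⊆ F') {x n : N} (hA : Av C F' x n) : Av C F x n :=
  fun p l j hp hj => hA p l j (h hp) hj

theorem below_mono {A : Set N} {i i' : N} (h : i ≤ i') : Below A i ⊆ Below A i' :=
  fun _ hk => ⟨hk.1, lt_of_lt_of_le hk.2 h⟩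

end I_BKC

open I_BKC in
theorem BKC_pf (hB : S_BKB.{u}) : S_BKC.{u} := by
  intro N _ _ _ _ S hS C A hF hFree p l j p' l' hp hj hW hp'
  obtain ⟨n, z, hz⟩ := hB N S hS C A hF p l hp
  have e1 : pr p l ≤ max (pr p l) (pr p' l') + 1 :=
    (le_max_left _ _).trans (Good.lt_succ_self _).le
  have e2 : pr p' l' < max (pr p l) (pr p' l') + 1 := (hS.lt_succ _ _).2 (le_max_right _ _)
  obtain ⟨x, hzx, hx⟩ := hFree (max (pr p l) (pr p' l') + 1) n z
  obtain ⟨j0, hj0, hW0⟩ := hz x hzx (av_anti (below_mono e1) hx)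
  have h1 : W C (x + j0 + j) C p' l' := (hW0.sub hj).trans hW
  rw [add_assoc] at h1
  refine hx p' l' (j0 + j) ⟨hp', e2⟩ ?_ h1
  have h2 : j0 + (j + l') ≤ j0 + l := add_le_add_right hj j0
  rw [add_assoc]
  exact h2.trans hj0

end Pool.Agent.Work.MP_69fea5_lc.H2
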