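import Pool.Agent.Work.MP_69fea5_lc.H2.Basic

set_option autoImplicit false
set_option linter.unusedSectionVars false

namespace Pool.Agent.Work.MP_69fea5_lc.H2

universe u

theorem BKM_pf (hB : S_BKB.{u}) (hC : S_BKC.{u}) : S_BKM.{u} := by
  intro N _ _ _ _ S hS C A Y hF hfree hY
  have far : ∀ p l z, ∃ x, z ≤ x ∧ W C x Y p l := by
    intro p l z
    obtain ⟨q, hq, hqW⟩ := hY (p + l)
    obtain ⟨n, z0, hn⟩ := hB N S hS C A hF q (p + l) hq
    obtain ⟨x, hx, hAv⟩ := hfree (pr q (p + l)) n (max z z0)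
    obtain ⟨j, hj, hW⟩ := hn x ((le_max_right _ _).trans hx) hAv
    refine ⟨x + j + p, ?_, ?_⟩
    · exact ((le_max_left _ _).trans hx).trans (le_self_add.trans le_self_add)
    · have h1 := (hW.trans hqW).sub (j := p) (m := l) le_rfl
      rwa [zero_add] at h1
  refine ⟨far, ?_⟩
  intro p l
  obtain ⟨q0, hq0, hq0W⟩ := hY (p + l)
  have h1 : pr (q0 + p) l ∉ A :=
    hC N S hS C A hF hfree q0 (p + l) p (q0 + p) l hq0 le_rfl (W.refl _ _ _)
  obtain ⟨n, z, hn⟩ := hB N S hS C A hF (q0 + p) l h1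
  refine ⟨n + 1, fun q => ?_⟩
  obtain ⟨x, hx, hxW⟩ := far q n z
  have hAv : Av C (Below A (pr (q0 + p) l)) x n := by
    intro p2 l2 j hmem hj hW
    obtain ⟨q1, hq1, hq1W⟩ := hY (q + n)
    have e1 : W C (q1 + q) Y q n := by
      have := hq1W.sub (j := q) (m := n) le_rfl
      rwa [zero_add] at this
    have e2 : W C (q1 + q + j) C (x + j) l2 := (e1.trans hxW.symm).sub hj
    have e3 : W C (q1 + (q + j)) C p2 l2 := by
      rw [← add_assoc]
      exact e2.trans hW
    refine hC N S hS C A hF hfree q1 (q + n) (q + j) p2 l2 hq1 ?_ e3 hmem.1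
    rw [add_assoc]
    exact add_le_add_right hj q
  obtain ⟨j, hj, hW⟩ := hn x hx hAv
  refine ⟨j, lt_of_le_of_lt (le_self_add.trans hj) (Good.lt_succ_self n), ?_⟩
  have e4 : W C (x + j) Y (q + j) l := hxW.sub hj
  have e5 : W C (q0 + p) Y p l := by
    have := hq0W.sub (j := p) (m := l) le_rfl
    rwa [zero_add] at this
  exact (e4.symm.trans hW).trans e5

end Pool.Agent.Work.MP_69fea5_lc.H2
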