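import Pool.Agent.Work.MP_69fea5_lc.H2.Basic

/-!
Item BKP: every initial window of `Y` is the window of `C` at some `p` which is not forbidden.
-/

set_option autoImplicit false
set_option linter.unusedSectionVars false

namespace Pool.Agent.Work.MP_69fea5_lc.H2

universe u

namespace I_BKP

variable {N : Type u} [CommSemiring N] [LinearOrder N]
variable [IsStrictOrderedRing N] [CanonicallyOrderedAdd N]

theorem base {S : Set (Set N)} (_hS : Good S) {C A : Set N} (hF : Forb C A) :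
    pr (0 : N) 0 ∉ A := by
  intro h
  obtain ⟨-, h2⟩ := (hF _).1 h
  obtain ⟨x, -, hx⟩ := h2 0 0
  refine hx 0 0 0 (Or.inr rfl) (by simp) ?_
  intro k hk
  exact absurd hk (not_lt.2 zero_le)

theorem W_succ {S : Set (Set N)} (hS : Good S) {A B : Set N} {p q n : N} (h : W A p B q n)
    (hn : p + n ∈ A ↔ q + n ∈ B) : W A p B q (n + 1) := by
  intro k hk
  rcases (hS.le_of_lt_succ hk).lt_or_eq with h1 | h1
  · exact h k h1
  · rw [h1]
    exact hn

theorem choice (C Y : Set N) (n : N) (P : Prop) : ∃ q₀ : N, ∀ q, W C q Y 0 n →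
    (q + n ∈ C ↔ P) → W C q₀ Y 0 n ∧ (q₀ + n ∈ C ↔ P) := by
  by_cases h : ∃ q, W C q Y 0 n ∧ (q + n ∈ C ↔ P)
  · obtain ⟨q, hq⟩ := h
    exact ⟨q, fun _ _ _ => hq⟩
  · exact ⟨0, fun q h1 h2 => absurd ⟨q, h1, h2⟩ h⟩

theorem step {S : Set (Set N)} (hS : Good S) (C A : Set N)
    (hB : ∀ p l, pr p l ∉ A → ∃ n z, ∀ x, z ≤ x → Av C (Below A (pr p l)) x n →
      ∃ j, j + l ≤ n ∧ W C (x + j) C p l)
    (hfree : ∀ i, Free C (Below A i)) (Y : Set N) (n p : N) (hp : pr p n ∉ A)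
    (hW : W C p Y 0 n) : ∃ q, pr q (n + 1) ∉ A ∧ W C q Y 0 n := by
  by_contra hcon
  push Not at hcon
  have hall : ∀ q, W C q Y 0 n → pr q (n + 1) ∈ A := by
    intro q hq
    by_contra h
    exact hcon q h hq
  obtain ⟨n0, z, hz⟩ := hB p n hp
  obtain ⟨q0, h0⟩ := choice C Y n False
  obtain ⟨q1, h1⟩ := choice C Y n True
  obtain ⟨I, hI⟩ : ∃ I, I = pr p n + pr q0 (n + 1) + pr q1 (n + 1) + 1 := ⟨_, rfl⟩
  have hIp : pr p n < I := by
    rw [hI]
    refine lt_of_le_of_lt ?_ (Good.lt_succ_self _)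
    rw [add_assoc]
    exact le_self_add
  have hI0 : pr q0 (n + 1) < I := by
    rw [hI]
    refine lt_of_le_of_lt ?_ (Good.lt_succ_self _)
    rw [add_comm (pr p n), add_assoc]
    exact le_self_add
  have hI1 : pr q1 (n + 1) < I := by
    rw [hI]
    refine lt_of_le_of_lt ?_ (Good.lt_succ_self _)
    exact le_add_self
  obtain ⟨x, hzx, hx⟩ := hfree I (n0 + 1) z
  obtain ⟨j, hj, hWj⟩ := hz x hzx (by
    intro p' l' j' hF hjl
    exact hx p' l' j' ⟨hF.1, hF.2.trans hIp⟩ (hjl.trans (Good.lt_succ_self n0).le))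
  have hWY : W C (x + j) Y 0 n := hWj.trans hW
  have hle : j + (n + 1) ≤ n0 + 1 := by
    rw [← add_assoc]
    exact add_le_add_left hj 1
  have key : ∀ q, W C q Y 0 n → (q + n ∈ C ↔ x + j + n ∈ C) → pr q (n + 1) < I → False := by
    intro q hq hqn hqI
    refine hx q (n + 1) j ⟨hall q hq, hqI⟩ hle ?_
    exact W_succ hS (hWY.trans hq.symm) hqn.symm
  by_cases hc : x + j + n ∈ C
  · obtain ⟨h2, h3⟩ := h1 (x + j) hWY (by simp [hc])
    exact key q1 h2 (by simp [hc, h3]) hI1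
  · obtain ⟨h2, h3⟩ := h0 (x + j) hWY (by simp [hc])
    exact key q0 h2 (by simp [hc, h3]) hI0

end I_BKP

open I_BKP in
theorem BKP_pf (hB : S_BKB.{u}) : S_BKP.{u} := by
  intro N _ _ _ _ S hS C hC A hA hF hfree Y hY hYn n
  refine D.induct hS (R := fun n => ∃ p, pr p n ∉ A ∧ W C p Y 0 n) ?_ ?_ ?_ n
  · refine D.ex (R := fun q (a : N × PUnit.{u + 1}) => pr q a.1 ∉ A ∧ W C q Y 0 a.1) ?_
    exact D.and (D.not (D.mem hA (DF.pr hS (DF.v0 hS) (DF.v1 hS))))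
      (D.W hS hC hY (DF.v0 hS) (DF.zero hS) (DF.v1 hS))
  · exact ⟨0, base hS hF, fun k hk => absurd hk (not_lt.2 zero_le)⟩
  · rintro n ⟨p, hp, hW⟩
    by_cases hn : n ∈ Y
    · obtain ⟨p', h1, h2, h3⟩ := (hYn n).1 hn
      refine ⟨p', h1, W_succ hS h2 ?_⟩
      rw [zero_add]
      exact ⟨fun _ => hn, fun _ => h3⟩
    · obtain ⟨p', h1, h2⟩ := step hS C A (hB N S hS C A hF) hfree Y n p hp hW
      refine ⟨p', h1, W_succ hS h2 ?_⟩
      rw [zero_add]
      exact ⟨fun h3 => (hYn n).2 ⟨p', h1, h2, h3⟩, fun h3 => absurd h3 hn⟩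

end Pool.Agent.Work.MP_69fea5_lc.H2
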