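import Pool.Agent.Work.MP_69fea5_lc.H2.Basic

/-!
Existence of the sequence `Y` by course of values recursion.
-/

set_option autoImplicit false

namespace Pool.Agent.Work.MP_69fea5_lc.H2

universe u

theorem BKY_pf (hCV : S_CV.{u}) : S_BKY.{u} := by
  intro N _ _ _ _ S hS C hC A hA
  obtain ⟨Y, hY, h⟩ := hCV N S hS
    (fun n F => ∃ p, pr p (n + 1) ∉ A ∧ (∀ k < n, (p + k ∈ C ↔ k ∈ F)) ∧ p + n ∈ C) (by
      intro x F F' hF
      constructor
      · rintro ⟨p, h1, h2, h3⟩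
        exact ⟨p, h1, fun k hk => (h2 k hk).trans (hF k hk), h3⟩
      · rintro ⟨p, h1, h2, h3⟩
        exact ⟨p, h1, fun k hk => (h2 k hk).trans (hF k hk).symm, h3⟩) (by
      refine D.ex (R := fun p (a : N × N × N × PUnit.{u + 1}) => pr p (a.1 + 1) ∉ A ∧
        (∀ k < a.1, (p + k ∈ C ↔ k ∈ bs a.2.1 a.2.2.1)) ∧ p + a.1 ∈ C) ?_
      refine (D.not (D.mem hA (DF.pr hS (DF.v0 hS) (DF.add hS (DF.v1 hS) (DF.one hS))))).and
        (D.and ?_ (D.mem hC (DF.add hS (DF.v0 hS) (DF.v1 hS))))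
      exact D.ball hS (R := fun k (a : N × N × N × N × PUnit.{u + 1}) =>
        (a.1 + k ∈ C ↔ k ∈ bs a.2.2.1 a.2.2.2.1))
        (D.iff (D.mem hC (DF.add hS (DF.v1 hS) (DF.v0 hS)))
          (D.bs hS (DF.v0 hS) (DF.v3 hS) (DF.v4 hS))) (DF.v1 hS))
  refine ⟨Y, hY, fun n => (h n).trans ?_⟩
  simp only [W, zero_add]

end Pool.Agent.Work.MP_69fea5_lc.H2
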