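import Pool.Agent.Work.MP_69fea5_lc.H2.Basic

set_option autoImplicit false
set_option linter.unusedSectionVars false

namespace Pool.Agent.Work.MP_69fea5_lc.H2

universe u

theorem C1_pf (hCV : S_CV.{u}) : S_C1.{u} := by
  intro N _ _ _ _ S hS C hC Y hY hMin hBD
  have hBD' : ∃ p l i, i < l ∧ ∀ p' l' d, Ext Y p' l' d p l → ¬ Blk C Y p' l' (i + d) := by
    by_contra hc
    apply hBD
    intro p l i hil
    by_contra hc2
    apply hc
    exact ⟨p, l, i, hil, fun p' l' d h1 h2 => hc2 ⟨p', l', d, h1, h2⟩⟩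
  obtain ⟨p, l, i, hil, hnb⟩ := hBD'
  have hall : ∃ r : Prop, (p + i ∈ Y ↔ r) := ⟨_, Iff.rfl⟩
  obtain ⟨r, hr⟩ := hall
  obtain ⟨X, hXS, hX⟩ := hCV N S hS
    (fun x F => 0 < x ∧ (x ∈ C ↔ r) ∧ (∀ y < x, y ∈ F → (x + y ∈ C ↔ r)) ∧
      ∃ p' l' d, Ext Y p' l' d p l ∧
        (∀ y < x, y ∈ F → (i + d + y < l' ∧ (p' + (i + d) + y ∈ Y ↔ r))) ∧
        i + d + x < l' ∧ (p' + (i + d) + x ∈ Y ↔ r))
    (by
      intro x F F' h
      have e1 : (∀ y < x, y ∈ F → (x + y ∈ C ↔ r)) ↔ (∀ y < x, y ∈ F' → (x + y ∈ C ↔ r)) :=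
        forall_congr' fun y => forall_congr' fun hy => by rw [h y hy]
      have e2 : ∀ p' l' d : N,
          (∀ y < x, y ∈ F → (i + d + y < l' ∧ (p' + (i + d) + y ∈ Y ↔ r))) ↔
          (∀ y < x, y ∈ F' → (i + d + y < l' ∧ (p' + (i + d) + y ∈ Y ↔ r))) := fun p' l' d =>
        forall_congr' fun y => forall_congr' fun hy => by rw [h y hy]
      refine and_congr_right fun _ => and_congr_right fun _ => and_congr e1 ?_
      refine exists_congr fun p' => exists_congr fun l' => exists_congr fun d => ?_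
      exact and_congr_right fun _ => and_congr (e2 p' l' d) Iff.rfl)
    (by
      refine (D.lt hS (DF.zero hS) (DF.v0 hS)).and (D.and ?_ (D.and ?_ ?_))
      · exact (D.mem hC (DF.v0 hS)).iff (D.const hS r)
      · refine D.ball hS (R := fun y (q : N × N × N × PUnit.{u + 1}) =>
          y ∈ bs q.2.1 q.2.2.1 → (q.1 + y ∈ C ↔ r)) ?_ (DF.v0 hS)
        refine D.imp ?_ ?_
        · exact D.bs hS (DF.v0 hS) (DF.v2 hS) (DF.v3 hS)
        · exact (D.mem hC (DF.add hS (DF.v1 hS) (DF.v0 hS))).iff (D.const hS r)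
      · refine D.ex (R := fun p' (q : N × N × N × PUnit.{u + 1}) => ∃ l' d, Ext Y p' l' d p l ∧
          (∀ y < q.1, y ∈ bs q.2.1 q.2.2.1 → (i + d + y < l' ∧ (p' + (i + d) + y ∈ Y ↔ r))) ∧
          i + d + q.1 < l' ∧ (p' + (i + d) + q.1 ∈ Y ↔ r)) ?_
        refine D.ex (R := fun l' (q : N × N × N × N × PUnit.{u + 1}) => ∃ d, Ext Y q.1 l' d p l ∧
          (∀ y < q.2.1, y ∈ bs q.2.2.1 q.2.2.2.1 →
            (i + d + y < l' ∧ (q.1 + (i + d) + y ∈ Y ↔ r))) ∧
          i + d + q.2.1 < l' ∧ (q.1 + (i + d) + q.2.1 ∈ Y ↔ r)) ?_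
        refine D.ex (R := fun d (q : N × N × N × N × N × PUnit.{u + 1}) =>
          Ext Y q.2.1 q.1 d p l ∧
          (∀ y < q.2.2.1, y ∈ bs q.2.2.2.1 q.2.2.2.2.1 →
            (i + d + y < q.1 ∧ (q.2.1 + (i + d) + y ∈ Y ↔ r))) ∧
          i + d + q.2.2.1 < q.1 ∧ (q.2.1 + (i + d) + q.2.2.1 ∈ Y ↔ r)) ?_
        refine D.and ?_ (D.and ?_ (D.and ?_ ?_))
        · exact D.Ext hS hY (DF.v2 hS) (DF.v1 hS) (DF.v0 hS) (DF.const hS p) (DF.const hS l)
        · refine D.ball hS (R := fun y (q : N × N × N × N × N × N × PUnit.{u + 1}) =>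
            y ∈ bs q.2.2.2.2.1 q.2.2.2.2.2.1 →
            (i + q.1 + y < q.2.1 ∧ (q.2.2.1 + (i + q.1) + y ∈ Y ↔ r))) ?_ (DF.v3 hS)
          refine D.imp ?_ (D.and ?_ ?_)
          · exact D.bs hS (DF.v0 hS) (DF.v5 hS) (DF.v6 hS)
          · exact D.lt hS (DF.add hS (DF.add hS (DF.const hS i) (DF.v1 hS)) (DF.v0 hS)) (DF.v2 hS)
          · exact (D.mem hY (DF.add hS (DF.add hS (DF.v3 hS)
              (DF.add hS (DF.const hS i) (DF.v1 hS))) (DF.v0 hS))).iff (D.const hS r)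
        · exact D.lt hS (DF.add hS (DF.add hS (DF.const hS i) (DF.v0 hS)) (DF.v3 hS)) (DF.v1 hS)
        · exact (D.mem hY (DF.add hS (DF.add hS (DF.v2 hS)
              (DF.add hS (DF.const hS i) (DF.v0 hS))) (DF.v3 hS))).iff (D.const hS r))
  refine ⟨r, X, hXS, ?_, ?_⟩
  · intro m
    by_contra hc
    push Not at hc
    have key : ∀ n, ∃ p' l' d, Ext Y p' l' d p l ∧
        ∀ y < n, y ∈ X → (i + d + y < l' ∧ (p' + (i + d) + y ∈ Y ↔ r)) := by
      refine D.induct hS (R := fun n => ∃ p' l' d, Ext Y p' l' d p l ∧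
        ∀ y < n, y ∈ X → (i + d + y < l' ∧ (p' + (i + d) + y ∈ Y ↔ r))) ?_ ?_ ?_
      · refine D.ex (R := fun p' (q : N × PUnit.{u + 1}) => ∃ l' d, Ext Y p' l' d p l ∧
          (∀ y < q.1, y ∈ X → (i + d + y < l' ∧ (p' + (i + d) + y ∈ Y ↔ r)))) ?_
        refine D.ex (R := fun l' (q : N × N × PUnit.{u + 1}) => ∃ d, Ext Y q.1 l' d p l ∧
          (∀ y < q.2.1, y ∈ X → (i + d + y < l' ∧ (q.1 + (i + d) + y ∈ Y ↔ r)))) ?_
        refine D.ex (R := fun d (q : N × N × N × PUnit.{u + 1}) =>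
          Ext Y q.2.1 q.1 d p l ∧
          (∀ y < q.2.2.1, y ∈ X → (i + d + y < q.1 ∧ (q.2.1 + (i + d) + y ∈ Y ↔ r)))) ?_
        refine D.and ?_ ?_
        · exact D.Ext hS hY (DF.v2 hS) (DF.v1 hS) (DF.v0 hS) (DF.const hS p) (DF.const hS l)
        · refine D.ball hS (R := fun y (q : N × N × N × N × PUnit.{u + 1}) =>
            y ∈ X → (i + q.1 + y < q.2.1 ∧ (q.2.2.1 + (i + q.1) + y ∈ Y ↔ r))) ?_ (DF.v3 hS)
          refine D.imp ?_ (D.and ?_ ?_)
          · exact D.mem hXS (DF.v0 hS)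
          · exact D.lt hS (DF.add hS (DF.add hS (DF.const hS i) (DF.v1 hS)) (DF.v0 hS)) (DF.v2 hS)
          · exact (D.mem hY (DF.add hS (DF.add hS (DF.v3 hS)
              (DF.add hS (DF.const hS i) (DF.v1 hS))) (DF.v0 hS))).iff (D.const hS r)
      · exact ⟨p, l, 0, Ext.refl Y p l, fun y hy => absurd hy (not_lt.2 zero_le)⟩
      · rintro n ⟨p', l', d, hE, hy⟩
        by_cases hn : n ∈ X
        · obtain ⟨_, _, _, p'', l'', d'', hE', hy', h1, h2⟩ := (hX n).1 hn
          refine ⟨p'', l'', d'', hE', fun y hyn hyX => ?_⟩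
          rcases (hS.le_of_lt_succ hyn).lt_or_eq with h | h
          · exact hy' y h hyX
          · subst h
            exact ⟨h1, h2⟩
        · refine ⟨p', l', d, hE, fun y hyn hyX => ?_⟩
          rcases (hS.le_of_lt_succ hyn).lt_or_eq with h | h
          · exact hy y h hyX
          · subst h
            exact absurd hyX hn
    obtain ⟨p', l', d, hE, hy⟩ := key m
    have hB := hnb p' l' d hE
    have hB' : ∃ s, m + 1 ≤ s ∧ W C s Y p' l' ∧ ∃ q, W Y q Y p' l' ∧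
        ¬ (q + (i + d) + (s + (i + d)) ∈ Y ↔ p' + (i + d) ∉ Y) := by
      by_contra hcc
      apply hB
      refine ⟨m + 1, fun s hs hW q hq => ?_⟩
      by_contra h3
      exact hcc ⟨s, hs, hW, q, hq, h3⟩
    obtain ⟨s, hs, hWs, q, hWq, hnq⟩ := hB'
    have hdl : d + l ≤ l' := hE.1
    have hid : i + d < l' := lt_of_lt_of_le (by grind) hdl
    have hpi : (p' + (i + d) ∈ Y ↔ r) := by
      have h1 := hE.2 i hil
      have e : p' + d + i = p' + (i + d) := by ring
      rw [e] at h1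
      exact h1.trans hr
    have hms : m < s + (i + d) := by
      have h0 : (0 : N) ≤ i + d := zero_le
      have h1 : m < s := lt_of_lt_of_le (Good.lt_succ_self m) hs
      exact lt_of_lt_of_le h1 le_self_add
    have hxX : s + (i + d) ∈ X := by
      refine (hX _).2 ⟨lt_of_le_of_lt zero_le hms, ?_, ?_, ?_⟩
      · exact (hWs (i + d) hid).trans hpi
      · intro y _ hyX
        obtain ⟨h1, h2⟩ := hy y (hc y hyX) hyX
        have h3 := hWs (i + d + y) h1
        have e1 : s + (i + d) + y = s + (i + d + y) := by ring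
        have e2 : p' + (i + d) + y = p' + (i + d + y) := by ring
        rw [e1]
        rw [e2] at h2
        exact h3.trans h2
      · refine ⟨q, max (i + d + (s + (i + d)) + 1) l', d, ⟨hdl.trans (le_max_right _ _), ?_⟩,
          ?_, ?_, ?_⟩
        · exact (hWq.sub hdl).trans hE.2
        · intro y _ hyX
          obtain ⟨h1, h2⟩ := hy y (hc y hyX) hyX
          refine ⟨lt_of_lt_of_le h1 (le_max_right _ _), ?_⟩
          have h3 := hWq (i + d + y) h1
          have e1 : q + (i + d) + y = q + (i + d + y) := by ring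
          have e2 : p' + (i + d) + y = p' + (i + d + y) := by ring
          rw [e1]
          rw [e2] at h2
          exact h3.trans h2
        · exact lt_of_lt_of_le (Good.lt_succ_self _) (le_max_left _ _)
        · tauto
    exact absurd (hc _ hxX) (not_lt.2 hms.le)
  · intro x hxX
    obtain ⟨h1, h2, h3, _⟩ := (hX x).1 hxX
    exact ⟨h1, h2, fun y hyX hyx => h3 y hyx hyX⟩

end Pool.Agent.Work.MP_69fea5_lc.H2
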