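import Pool.Agent.Work.MP_69fea5_lc.H2.Basic

set_option autoImplicit false
set_option linter.unusedSectionVars false

namespace Pool.Agent.Work.MP_69fea5_lc.H2

universe u

namespace I_CODE

variable {N : Type u} [CommSemiring N] [LinearOrder N] [IsStrictOrderedRing N]
  [CanonicallyOrderedAdd N]
variable {S : Set (Set N)}

/-- the statement of the induction -/
def P (X : Set N) (n m j : N) : Prop :=
  j ≤ n → ∃ a, (∀ k < j, k ∈ X → 1 + (k + 1) * m ∣ a) ∧
    ∀ k < n, (k ∉ X ∨ j ≤ k) → ∃ s t, s * a = 1 + t * (1 + (k + 1) * m)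

theorem P_def (hS : Good S) {X : Set N} (hX : X ∈ S) (n m : N) :
    D S fun p : N × PUnit.{u + 1} => P X n m p.1 := by
  refine (D.le hS (DF.v0 hS) (DF.const hS n)).imp ?_
  refine D.ex (R := fun a (p : N × PUnit.{u + 1}) =>
    (∀ k < p.1, k ∈ X → 1 + (k + 1) * m ∣ a) ∧
    ∀ k < n, (k ∉ X ∨ p.1 ≤ k) → ∃ s t, s * a = 1 + t * (1 + (k + 1) * m)) ?_
  refine D.and ?_ ?_
  · refine D.ball hS (R := fun k (p : N × N × PUnit.{u + 1}) => k ∈ X →
      1 + (k + 1) * m ∣ p.1) ?_ (DF.v1 hS)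
    refine (D.mem hX (DF.v0 hS)).imp ?_
    exact D.dvd hS (DF.add hS (DF.one hS) (DF.mul hS (DF.add hS (DF.v0 hS) (DF.one hS))
      (DF.const hS m))) (DF.v1 hS)
  · refine D.ball hS (R := fun k (p : N × N × PUnit.{u + 1}) => (k ∉ X ∨ p.2.1 ≤ k) →
      ∃ s t, s * p.1 = 1 + t * (1 + (k + 1) * m)) ?_ (DF.const hS n)
    refine ((D.mem hX (DF.v0 hS)).not.or (D.le hS (DF.v2 hS) (DF.v0 hS))).imp ?_
    refine D.ex (R := fun s (p : N × N × N × PUnit.{u + 1}) =>
      ∃ t, s * p.2.1 = 1 + t * (1 + (p.1 + 1) * m)) ?_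
    refine D.ex (R := fun t (p : N × N × N × N × PUnit.{u + 1}) =>
      p.1 * p.2.2.1 = 1 + t * (1 + (p.2.1 + 1) * m)) ?_
    exact D.eq (DF.mul hS (DF.v1 hS) (DF.v3 hS)) (DF.add hS (DF.one hS) (DF.mul hS (DF.v0 hS)
      (DF.add hS (DF.one hS) (DF.mul hS (DF.add hS (DF.v2 hS) (DF.one hS)) (DF.const hS m)))))

theorem P_all (hS : Good S) {X : Set N} (hX : X ∈ S) (n m : N)
    (hI : ∀ i k, i < n → k < n → i ≠ k →
      ∃ s t, s * (1 + (i + 1) * m) = 1 + t * (1 + (k + 1) * m)) (j : N) : P X n m j := by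
  refine D.induct hS (R := fun j => P X n m j) (P_def hS hX n m) ?_ ?_ j
  · intro _
    refine ⟨1, fun k hk => absurd hk (not_lt.2 zero_le), fun k _ _ => ⟨1, 0, by ring⟩⟩
  · intro j ih hj
    have hjn : j < n := lt_of_lt_of_le (Good.lt_succ_self j) hj
    obtain ⟨a, ha1, ha2⟩ := ih hjn.le
    by_cases hjX : j ∈ X
    · refine ⟨a * (1 + (j + 1) * m), fun k hk hkX => ?_, fun k hk h => ?_⟩
      · rcases (hS.le_of_lt_succ hk).lt_or_eq with h1 | h1
        · exact Dvd.dvd.mul_right (ha1 k h1 hkX) _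
        · subst h1
          exact Dvd.intro_left _ rfl
      · have hne : j ≠ k := by
          rintro rfl
          rcases h with h | h
          · exact h hjX
          · exact absurd h (not_le.2 (Good.lt_succ_self j))
        obtain ⟨s, t, hst⟩ := ha2 k hk (h.imp id fun h => (Good.lt_succ_self j).le.trans h)
        obtain ⟨s', t', hst'⟩ := hI j k hjn hk hne
        refine ⟨s * s', t + t' + t * t' * (1 + (k + 1) * m), ?_⟩
        calc s * s' * (a * (1 + (j + 1) * m)) = (s * a) * (s' * (1 + (j + 1) * m)) := by ring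
          _ = (1 + t * (1 + (k + 1) * m)) * (1 + t' * (1 + (k + 1) * m)) := by rw [hst, hst']
          _ = _ := by ring
    · refine ⟨a, fun k hk hkX => ?_, fun k hk h => ?_⟩
      · rcases (hS.le_of_lt_succ hk).lt_or_eq with h1 | h1
        · exact ha1 k h1 hkX
        · exact absurd (h1 ▸ hkX) hjX
      · exact ha2 k hk (h.imp id fun h => (Good.lt_succ_self j).le.trans h)

theorem contra (hS : Good S) {q s t a r : N} (hq : 1 < q) (h : s * a = 1 + t * q)
    (hr : a = q * r) : False := by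
  have h1 : q * (s * r) = 1 + q * t := by
    calc q * (s * r) = s * a := by rw [hr]; ring
      _ = 1 + q * t := by rw [h]; ring
  rcases lt_or_ge t (s * r) with hlt | hge
  · have h2 : q * (t + 1) ≤ q * (s * r) := mul_le_mul_right (hS.succ_le hlt) q
    rw [h1, mul_add, mul_one, add_comm 1 (q * t)] at h2
    exact absurd hq (not_lt.2 (le_of_add_le_add_left h2))
  · have h2 : q * (s * r) ≤ q * t := mul_le_mul_right hge q
    rw [h1] at h2
    exact absurd (Good.lt_succ_self (q * t)) (not_lt.2 (by rw [add_comm]; exact h2))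

end I_CODE

open I_CODE in
theorem CODE_pf (hLCM : S_LCM.{u}) (hINV : S_INV.{u}) : S_CODE.{u} := by
  intro N _ _ _ _ S hS X hX n
  obtain ⟨m, hm, hj⟩ := hLCM N S hS n
  obtain ⟨a, ha1, ha2⟩ := P_all hS hX n m (hINV N S hS n m hm hj) n le_rfl
  refine ⟨a, m, fun k hk => ⟨fun h => ?_, fun h => ha1 k hk h⟩⟩
  by_contra hkX
  obtain ⟨s, t, hst⟩ := ha2 k hk (Or.inl hkX)
  obtain ⟨r, hr⟩ := h
  refine contra hS ?_ hst hr
  exact lt_add_of_pos_right 1 (mul_pos (lt_of_le_of_lt zero_le (Good.lt_succ_self k)) hm)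

end Pool.Agent.Work.MP_69fea5_lc.H2
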