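import Pool.Agent.Work.MP_69fea5_lc.H2.Basic

/-! Item COH of block [69fea5 H2]: cohesive subsets. -/

set_option autoImplicit false

namespace Pool.Agent.Work.MP_69fea5_lc.H2

universe u

namespace I_COH

variable {N : Type u} [CommSemiring N] [LinearOrder N]
variable {S : Set (Set N)} {α : Type u} [Cx N α]

/-- the traces of `R` on `[0,n)` at `b` is `E` -/
def Tr (R : N → N → Prop) (E : Set N) (n b : N) : Prop := ∀ k < n, (R k b ↔ k ∈ E)

theorem D_Tr (hS : Good S) {R : N → N → Prop}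
    (hR : D S fun p : N × N × PUnit.{u + 1} => R p.1 p.2.1) {E : Set N} (hE : E ∈ S)
    {n b : α → N} (hn : DF S n) (hb : DF S b) : D S fun a => Tr R E (n a) (b a) :=
  D.ball hS (R := fun k a => (R k (b a) ↔ k ∈ E))
    (D.iff (D.comp2 hR (DF.v0 hS) hb.wk) (D.mem hE (DF.v0 hS))) hn

/-- the requirement for the `n`-th element of `B'` -/
def P (R : N → N → Prop) (B E : Set N) (n b : N) : Prop :=
  b ∈ B ∧ n ≤ b ∧ Tr R E (n + 1) b

theorem D_P (hS : Good S) {R : N → N → Prop}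
    (hR : D S fun p : N × N × PUnit.{u + 1} => R p.1 p.2.1) {B E : Set N} (hB : B ∈ S)
    (hE : E ∈ S) {n b : α → N} (hn : DF S n) (hb : DF S b) :
    D S fun a => P R B E (n a) (b a) :=
  (D.mem hB hb).and ((D.le hS hn hb).and (D_Tr hS hR hE (DF.add hS hn (DF.one hS)) hb))

/-- `b` is the least element satisfying the `n`-th requirement -/
def Lst (R : N → N → Prop) (B E : Set N) (n b : N) : Prop :=
  P R B E n b ∧ ∀ b' < b, ¬ P R B E n b'

theorem D_Lst (hS : Good S) {R : N → N → Prop}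
    (hR : D S fun p : N × N × PUnit.{u + 1} => R p.1 p.2.1) {B E : Set N} (hB : B ∈ S)
    (hE : E ∈ S) {n b : α → N} (hn : DF S n) (hb : DF S b) :
    D S fun a => Lst R B E (n a) (b a) :=
  (D_P hS hR hB hE hn hb).and
    (D.ball hS (R := fun b' a => ¬ P R B E (n a) b')
      (D_P hS hR hB hE hn.wk (DF.v0 hS)).not hb)

end I_COH

open I_COH in
theorem COH_pf (hCV : S_CV.{u}) : S_COH.{u} := by
  intro N _ _ _ _ S hS R hR B hB hBU
  -- the generic trace
  obtain ⟨E, hE, hEx⟩ := hCV N S hS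
    (fun n F => ∀ z, ∃ b, b ∈ B ∧ z ≤ b ∧ (∀ k < n, (R k b ↔ k ∈ F)) ∧ R n b)
    (by
      intro x F F' h
      refine forall_congr' fun z => exists_congr fun b => ?_
      have h1 : (∀ k < x, (R k b ↔ k ∈ F)) ↔ (∀ k < x, (R k b ↔ k ∈ F')) :=
        forall_congr' fun k => forall_congr' fun hk => by rw [h k hk]
      rw [h1])
    (by
      refine D.all (R := fun z (p : N × N × N × PUnit.{u + 1}) => ∃ b, b ∈ B ∧ z ≤ b ∧
        (∀ k < p.1, (R k b ↔ k ∈ bs p.2.1 p.2.2.1)) ∧ R p.1 b) ?_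
      refine D.ex (R := fun b (p : N × N × N × N × PUnit.{u + 1}) => b ∈ B ∧ p.1 ≤ b ∧
        (∀ k < p.2.1, (R k b ↔ k ∈ bs p.2.2.1 p.2.2.2.1)) ∧ R p.2.1 b) ?_
      refine (D.mem hB (DF.v0 hS)).and ((D.le hS (DF.v1 hS) (DF.v0 hS)).and (D.and ?_ ?_))
      · refine D.ball hS (R := fun k (p : N × N × N × N × N × PUnit.{u + 1}) =>
          (R k p.1 ↔ k ∈ bs p.2.2.2.1 p.2.2.2.2.1)) ?_ (DF.v2 hS)
        exact D.iff (D.comp2 hR (DF.v0 hS) (DF.v1 hS))
          (D.bs hS (DF.v0 hS) (DF.v4 hS) (DF.v5 hS))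
      · exact D.comp2 hR (DF.v2 hS) (DF.v0 hS))
  have claim : ∀ n, ∀ z, ∃ b, b ∈ B ∧ z ≤ b ∧ Tr R E n b := by
    refine D.induct hS (R := fun n => ∀ z, ∃ b, b ∈ B ∧ z ≤ b ∧ Tr R E n b) ?_ ?_ ?_
    · refine D.all (R := fun z (p : N × PUnit.{u + 1}) => ∃ b, b ∈ B ∧ z ≤ b ∧ Tr R E p.1 b) ?_
      refine D.ex (R := fun b (p : N × N × PUnit.{u + 1}) => b ∈ B ∧ p.1 ≤ b ∧ Tr R E p.2.1 b) ?_
      exact (D.mem hB (DF.v0 hS)).and ((D.le hS (DF.v1 hS) (DF.v0 hS)).and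
        (D_Tr hS hR hE (DF.v2 hS) (DF.v0 hS)))
    · intro z
      obtain ⟨b, hb, hzb⟩ := hBU z
      exact ⟨b, hb, hzb, fun k hk => absurd hk (not_lt.2 zero_le)⟩
    · intro n ih z
      by_cases hn : n ∈ E
      · obtain ⟨b, hb, hzb, h1, h2⟩ := (hEx n).1 hn z
        refine ⟨b, hb, hzb, fun k hk => ?_⟩
        rcases (hS.le_of_lt_succ hk).lt_or_eq with h | h
        · exact h1 k h
        · subst h
          exact ⟨fun _ => hn, fun _ => h2⟩
      · have h0 : ∃ z₀, ∀ b, b ∈ B → z₀ ≤ b → Tr R E n b → ¬ R n b := by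
          by_contra hc
          push Not at hc
          refine hn ((hEx n).2 fun z => ?_)
          obtain ⟨b, hb, hzb, h1, h2⟩ := hc z
          exact ⟨b, hb, hzb, h1, h2⟩
        obtain ⟨z₀, hz₀⟩ := h0
        obtain ⟨b, hb, hzb, h1⟩ := ih (max z z₀)
        refine ⟨b, hb, (le_max_left _ _).trans hzb, fun k hk => ?_⟩
        rcases (hS.le_of_lt_succ hk).lt_or_eq with h | h
        · exact h1 k h
        · subst h
          have h2 := hz₀ b hb ((le_max_right _ _).trans hzb) h1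
          exact ⟨fun h3 => absurd h3 h2, fun h3 => absurd h3 hn⟩
  have exP : ∀ n, ∃ b, P R B E n b := by
    intro n
    obtain ⟨b, hb, hzb, h1⟩ := claim (n + 1) n
    exact ⟨b, hb, hzb, h1⟩
  have exL : ∀ n, ∃ b, Lst R B E n b := by
    intro n
    have hD : D S fun p : N × PUnit.{u + 1} => P R B E n p.1 :=
      D_P hS hR hB hE (DF.const hS n) (DF.v0 hS)
    obtain ⟨b, hb, hb'⟩ := D.least hS (R := fun b => P R B E n b) hD (exP n)
    exact ⟨b, hb, hb'⟩
  refine ⟨{b | ∃ n, Lst R B E n b}, ?_, ?_, ?_, ?_⟩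
  · refine D.set0 hS (R := fun b => ∃ n, Lst R B E n b) ?_
    exact D.ex (R := fun n (p : N × PUnit.{u + 1}) => Lst R B E n p.1)
      (D_Lst hS hR hB hE (DF.v0 hS) (DF.v1 hS))
  · rintro b ⟨n, h⟩
    exact h.1.1
  · intro m
    obtain ⟨b, hb⟩ := exL m
    exact ⟨b, ⟨m, hb⟩, hb.1.2.1⟩
  · intro n
    obtain ⟨z, hz⟩ := D.collect hS (R := fun j b => ¬ Lst R B E j b)
      (D_Lst hS hR hB hE (DF.v0 hS) (DF.v1 hS)).not n (by
        intro j _
        obtain ⟨b, hb⟩ := exL j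
        refine ⟨b + 1, fun b' hb' h => ?_⟩
        exact h.2 b (lt_of_lt_of_le (Good.lt_succ_self b) hb') hb.1)
    have key : ∀ b ∈ {b | ∃ n, Lst R B E n b}, z ≤ b → (R n b ↔ n ∈ E) := by
      rintro b ⟨j, hj⟩ hzb
      have hnj : n ≤ j := by
        by_contra hc
        exact hz j (not_le.1 hc) b hzb hj
      exact hj.1.2.2 n (lt_of_le_of_lt hnj (Good.lt_succ_self j))
    by_cases hn : n ∈ E
    · exact Or.inl ⟨z, fun b hb hzb => (key b hb hzb).2 hn⟩
    · exact Or.inr ⟨z, fun b hb hzb h => hn ((key b hb hzb).1 h)⟩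

end Pool.Agent.Work.MP_69fea5_lc.H2
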