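import Pool.Agent.Work.MP_69fea5_lc.H2.Basic

/-!
CV: course of values recursion for sets.
-/

set_option autoImplicit false
set_option linter.unusedSectionVars false

namespace Pool.Agent.Work.MP_69fea5_lc.H2

universe u

namespace I_CV

variable {N : Type u} [CommSemiring N] [LinearOrder N]
variable {S : Set (Set N)} {α : Type u} [Cx N α]

/-- the coded set satisfies the recursion below `n` -/
def OK (Φ : N → Set N → Prop) (a m n : N) : Prop := ∀ x < n, (x ∈ bs a m ↔ Φ x (bs a m))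

theorem dOK (hS : Good S) {Φ : N → Set N → Prop}
    (hΦ : D S fun p : N × N × N × PUnit.{u + 1} => Φ p.1 (bs p.2.1 p.2.2.1))
    {a m n : α → N} (ha : DF S a) (hm : DF S m) (hn : DF S n) :
    D S fun p => OK Φ (a p) (m p) (n p) :=
  D.ball hS (R := fun x p => (x ∈ bs (a p) (m p) ↔ Φ x (bs (a p) (m p))))
    (D.iff (D.bs hS (DF.v0 hS) ha.wk hm.wk)
      (D.comp3 (R := fun x a m => Φ x (bs a m)) hΦ (DF.v0 hS) ha.wk hm.wk)) hn

section order

variable [IsStrictOrderedRing N] [CanonicallyOrderedAdd N]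

theorem OK.mono {Φ : N → Set N → Prop} {a m n n' : N} (h : OK Φ a m n) (hn : n' ≤ n) :
    OK Φ a m n' := fun x hx => h x (hx.trans_le hn)

theorem exists_OK (hCODE : S_CODE.{u}) (hS : Good S) {Φ : N → Set N → Prop}
    (hext : ∀ x F F', (∀ k < x, (k ∈ F ↔ k ∈ F')) → (Φ x F ↔ Φ x F'))
    (hΦ : D S fun p : N × N × N × PUnit.{u + 1} => Φ p.1 (bs p.2.1 p.2.2.1)) (n : N) :
    ∃ a m, OK Φ a m n := by
  refine D.induct hS (R := fun n => ∃ a m, OK Φ a m n) ?_ ?_ ?_ n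
  · exact D.ex (R := fun a (p : N × PUnit.{u + 1}) => ∃ m, OK Φ a m p.1)
      (D.ex (R := fun m (p : N × N × PUnit.{u + 1}) => OK Φ p.1 m p.2.1)
        (dOK hS hΦ (DF.v1 hS) (DF.v0 hS) (DF.v2 hS)))
  · exact ⟨0, 0, fun x hx => absurd hx (not_lt.2 zero_le)⟩
  · rintro n ⟨a, m, hOK⟩
    have hX' : {k : N | (k < n ∧ k ∈ bs a m) ∨ (k = n ∧ Φ n (bs a m))} ∈ S := by
      refine D.set0 hS (R := fun k => (k < n ∧ k ∈ bs a m) ∨ (k = n ∧ Φ n (bs a m))) ?_
      exact ((D.lt hS (DF.v0 hS) (DF.const hS n)).and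
        (D.bs hS (DF.v0 hS) (DF.const hS a) (DF.const hS m))).or
        ((D.eq (DF.v0 hS) (DF.const hS n)).and (D.const hS _))
    obtain ⟨a', m', h⟩ := hCODE N S hS _ hX' (n + 1)
    have h1 : ∀ k < n, (k ∈ bs a m ↔ k ∈ bs a' m') := by
      intro k hk
      rw [h k (hk.trans (Good.lt_succ_self n))]
      constructor
      · intro hkb
        exact Or.inl ⟨hk, hkb⟩
      · rintro (⟨_, hkb⟩ | ⟨hkn, _⟩)
        · exact hkb
        · exact absurd hkn (ne_of_lt hk)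
    refine ⟨a', m', fun x hx => ?_⟩
    rcases (hS.le_of_lt_succ hx).lt_or_eq with hxn | hxn
    · rw [← h1 x hxn, hOK x hxn]
      exact hext x _ _ fun k hk => h1 k (hk.trans hxn)
    · subst hxn
      rw [h x hx, ← hext x _ _ h1]
      constructor
      · rintro (⟨hlt, _⟩ | ⟨_, hP⟩)
        · exact absurd hlt (lt_irrefl _)
        · exact hP
      · intro hP
        exact Or.inr ⟨rfl, hP⟩

theorem OK_unique (hS : Good S) {Φ : N → Set N → Prop}
    (hext : ∀ x F F', (∀ k < x, (k ∈ F ↔ k ∈ F')) → (Φ x F ↔ Φ x F')) {a m a' m' n : N}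
    (h : OK Φ a m n) (h' : OK Φ a' m' n) : ∀ k < n, (k ∈ bs a m ↔ k ∈ bs a' m') := by
  intro k
  refine D.strong hS (R := fun k => k < n → (k ∈ bs a m ↔ k ∈ bs a' m')) ?_ ?_ k
  · exact (D.lt hS (DF.v0 hS) (DF.const hS n)).imp
      ((D.bs hS (DF.v0 hS) (DF.const hS a) (DF.const hS m)).iff
        (D.bs hS (DF.v0 hS) (DF.const hS a') (DF.const hS m')))
  · intro x ih hx
    rw [h x hx, h' x hx]
    exact hext x _ _ fun k hk => ih k hk (hk.trans hx)

end order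

end I_CV

theorem CV_pf (hCODE : S_CODE.{u}) : S_CV.{u} := by
  intro N _ _ _ _ S hS Φ hext hΦ
  refine ⟨{x | ∃ a m, I_CV.OK Φ a m (x + 1) ∧ x ∈ bs a m}, ?_, fun x => ?_⟩
  · refine D.set0 hS (R := fun x => ∃ a m, I_CV.OK Φ a m (x + 1) ∧ x ∈ bs a m) ?_
    exact D.ex (R := fun a (p : N × PUnit.{u + 1}) =>
        ∃ m, I_CV.OK Φ a m (p.1 + 1) ∧ p.1 ∈ bs a m)
      (D.ex (R := fun m (p : N × N × PUnit.{u + 1}) =>
          I_CV.OK Φ p.1 m (p.2.1 + 1) ∧ p.2.1 ∈ bs p.1 m)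
        ((I_CV.dOK hS hΦ (DF.v1 hS) (DF.v0 hS) (DF.add hS (DF.v2 hS) (DF.one hS))).and
          (D.bs hS (DF.v2 hS) (DF.v1 hS) (DF.v0 hS))))
  · obtain ⟨a, m, hOK⟩ := I_CV.exists_OK hCODE hS hext hΦ (x + 1)
    have key : ∀ k ≤ x, (k ∈ {x | ∃ a m, I_CV.OK Φ a m (x + 1) ∧ x ∈ bs a m} ↔
        k ∈ bs a m) := by
      intro k hk
      have hk1 : k + 1 ≤ x + 1 := add_le_add_left hk 1
      constructor
      · rintro ⟨a', m', h', hk'⟩
        exact (I_CV.OK_unique hS hext h' (hOK.mono hk1) k (Good.lt_succ_self k)).1 hk'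
      · intro hkb
        exact ⟨a, m, hOK.mono hk1, hkb⟩
    rw [key x le_rfl, hOK x (Good.lt_succ_self x)]
    exact hext x _ _ fun k hk => (key k hk.le).symm

end Pool.Agent.Work.MP_69fea5_lc.H2
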