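import Pool.Agent.Work.MP_69fea5_lc.H2.Basic

/-!
Item FIN: Case II, the main claim.
-/

set_option autoImplicit false

namespace Pool.Agent.Work.MP_69fea5_lc.H2

universe u

namespace I_FIN

variable {N : Type u} [CommSemiring N] [LinearOrder N] [IsStrictOrderedRing N]
  [CanonicallyOrderedAdd N]

/-- the midpoints of the occurrences of `p2` are occurrences of `p1` -/
theorem claim {S : Set (Set N)} {C Y B : Set N} {G : N → N → Prop} (hG : TwoLim S C Y B G)
    (h2 : ∀ p l i a t, i < l → Blk C Y p l i → W Y a Y p l → W Y (a + (t + t)) Y p l →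
      (a + t + i ∈ Y ↔ p + i ∈ Y))
    {p1 l1 p2 l2 d2 : N} (hE : Ext Y p2 l2 d2 p1 l1) (hB : ∀ i < l1, Blk C Y p2 l2 (i + d2))
    {u v n : N} (huv : u + v = n + n) {b b' z : N} (hz : z + b = b') (hn : n ≤ b)
    (hb : ∀ k < l2, (G (4 * b) (v + k) ↔ p2 + k ∈ Y))
    (hb' : ∀ k < l2, (G 0 (4 * b' + u + k) ↔ p2 + k ∈ Y)) :
    ∀ k < l1, (G 0 (z + z + n + d2 + k) ↔ p1 + k ∈ Y) := by
  intro k hk
  obtain ⟨q, hq⟩ := hG.win (4 * b) (4 * b + 4 * b' + u + v + n + l2)
  have hvn : v ≤ 2 * b + 2 * b' + n := by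
    have e1 : v ≤ n + n := huv ▸ le_add_self
    have e2 : n + n ≤ b + b := add_le_add hn hn
    have e3 : b + b ≤ 2 * b + 2 * b' + n := by
      have : 2 * b + 2 * b' + n = b + b + (2 * b' + n) := by ring
      rw [this]
      exact le_self_add
    exact (e1.trans e2).trans e3
  obtain ⟨T, hT⟩ := exists_add hvn
  -- `2 b + 2 b' + n = v + T`
  have hTT : v + (T + T) = 4 * b + 4 * b' + u := by
    have e : v + (T + T) + v = 4 * b + 4 * b' + u + v := by
      have e1 : v + (T + T) + v = (v + T) + (v + T) := by ring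
      rw [e1, ← hT]
      have e2 : 2 * b + 2 * b' + n + (2 * b + 2 * b' + n) = 4 * b + 4 * b' + (n + n) := by ring
      rw [e2, ← huv]
      ring
    exact add_right_cancel e
  have hkd : k + d2 < l2 := by
    have h1 : d2 + k < d2 + l1 := by gcongr
    exact lt_of_lt_of_le (by rwa [add_comm k d2]) hE.1
  have w1 : W Y (q + v) Y p2 l2 := by
    intro j hj
    have hlt : v + j < 4 * b + 4 * b' + u + v + n + l2 := by
      have : 4 * b + 4 * b' + u + v + n + l2 = (4 * b + 4 * b' + u + n) + (v + l2) := by ring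
      rw [this]
      exact lt_of_lt_of_le (by gcongr) le_add_self
    rw [add_assoc, ← hq _ hlt]
    exact hb j hj
  have w2 : W Y (q + v + (T + T)) Y p2 l2 := by
    intro j hj
    have hlt : 4 * b' + u + j + 4 * b < 4 * b + 4 * b' + u + v + n + l2 := by
      have e1 : 4 * b + 4 * b' + u + v + n + l2 = (v + n) + (4 * b' + u + l2 + 4 * b) := by ring
      rw [e1]
      exact lt_of_lt_of_le (by gcongr) le_add_self
    have e2 : q + v + (T + T) + j = q + (4 * b' + u + j + 4 * b) := by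
      have : q + v + (T + T) + j = q + (v + (T + T)) + j := by ring
      rw [this, hTT]
      ring
    rw [e2, ← hq _ hlt]
    have e3 := hG.shift 0 (4 * b' + u + j) (4 * b)
    rw [zero_add] at e3
    rw [e3]
    exact hb' j hj
  have h := h2 p2 l2 (k + d2) (q + v) T hkd (hB k hk) w1 w2
  have hlt : z + z + n + d2 + k + 4 * b < 4 * b + 4 * b' + u + v + n + l2 := by
    have e1 : 4 * b + 4 * b' + u + v + n + l2 =
        (z + z + n + 4 * b + l2) + (2 * z + 4 * b + u + v) := by
      rw [← hz]; ring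
    have e2 : z + z + n + d2 + k + 4 * b = z + z + n + 4 * b + (k + d2) := by ring
    rw [e1, e2]
    exact lt_of_lt_of_le (by gcongr) le_self_add
  have e4 : q + v + T + (k + d2) = q + (z + z + n + d2 + k + 4 * b) := by
    have : q + v + T + (k + d2) = q + (v + T) + (k + d2) := by ring
    rw [this, ← hT, ← hz]
    ring
  rw [e4, ← hq _ hlt] at h
  have e3 := hG.shift 0 (z + z + n + d2 + k) (4 * b)
  rw [zero_add] at e3
  rw [← e3, h]
  have e5 := hE.2 k hk
  have e6 : p2 + (k + d2) = p2 + d2 + k := by ring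
  rw [e6]
  exact e5

end I_FIN

theorem FIN_pf : S_FIN.{u} := by
  intro N _ _ _ _ S _ C _ Y _ B G hG h1 h2 h3 m
  obtain ⟨q0, hq0⟩ := hG.win 0 (m + 1)
  obtain ⟨p1, l1, d1, hE1, hB1⟩ := h3 q0 (m + 1)
  obtain ⟨p2, l2, d2, hE2, hB2⟩ := h3 p1 l1
  obtain ⟨u, v, n, huv, hgood⟩ := h1 p2 l2
  obtain ⟨zz, hzz⟩ := hG.lim (n + d2 + d1 + m + 1)
  obtain ⟨b, hbB, hbz, hb1, hb2⟩ := hgood (max zz n)
  obtain ⟨zz', hzz'⟩ := hzz b hbB ((le_max_left _ _).trans hbz)
  obtain ⟨b', hbB', hbz', hb1', hb2'⟩ := hgood (max zz' (b + m))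
  have hnb : n ≤ b := (le_max_right _ _).trans hbz
  have hbb' : b + m ≤ b' := (le_max_right _ _).trans hbz'
  obtain ⟨w, hw⟩ := exists_add hbb'
  have hz : m + w + b = b' := by rw [hw]; ring
  have hC := hzz' b' hbB' ((le_max_left _ _).trans hbz')
  -- the claim with `z = 0` and with `z = m + w`
  have c0 : ∀ k < l1, (G 0 (n + d2 + k) ↔ p1 + k ∈ Y) := by
    intro k hk
    have := I_FIN.claim hG h2 hE2 hB2 huv (zero_add b) hnb hb1 hb2 k hk
    simpa using this
  have c1 := I_FIN.claim hG h2 hE2 hB2 huv hz hnb hb1 hb2'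
  have hone : ∀ s, s ≤ m → s < m + 1 := fun s hs => lt_of_le_of_lt hs (Good.lt_succ_self m)
  have hd1 : ∀ s, s ≤ m → d1 + s < l1 := fun s hs =>
    lt_of_lt_of_le (by have := hone s hs; gcongr) hE1.1
  refine ⟨m + w + (n + d2 + d1), ?_, fun s hs => ?_, ?_⟩
  · rw [add_assoc]
    exact le_self_add
  · have hlt : n + d2 + d1 + s < n + d2 + d1 + m + 1 := by
      rw [add_assoc (n + d2 + d1) m 1]
      have := hone s hs
      gcongr
    have h4 := hC (n + d2 + d1 + s) hlt (m + w) hz
    have e1 : m + w + (n + d2 + d1) + s = m + w + (n + d2 + d1 + s) := by ring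
    rw [e1, h4]
    have h5 := c0 (d1 + s) (hd1 s hs)
    have e2 : n + d2 + d1 + s = n + d2 + (d1 + s) := by ring
    rw [e2, h5, hq0 s (hone s hs)]
    have h6 := hE1.2 s (hone s hs)
    have e3 : p1 + (d1 + s) = p1 + d1 + s := by ring
    rw [e3]
    exact h6
  · obtain ⟨q', hq'⟩ := hG.win 0 (m + w + (m + w) + n + d2 + l1)
    have w1 : W Y (q' + (n + d2)) Y p1 l1 := by
      intro j hj
      have hlt : n + d2 + j < m + w + (m + w) + n + d2 + l1 := by
        have : m + w + (m + w) + n + d2 + l1 = (m + w + (m + w)) + (n + d2 + l1) := by ring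
        rw [this]
        exact lt_of_lt_of_le (by gcongr) le_add_self
      rw [add_assoc, ← hq' _ hlt]
      exact c0 j hj
    have w2 : W Y (q' + (n + d2) + (m + w + (m + w))) Y p1 l1 := by
      intro j hj
      have hlt : m + w + (m + w) + n + d2 + j < m + w + (m + w) + n + d2 + l1 := by gcongr
      have e1 : q' + (n + d2) + (m + w + (m + w)) + j =
          q' + (m + w + (m + w) + n + d2 + j) := by ring
      rw [e1, ← hq' _ hlt]
      exact c1 j hj
    have hd0 : 0 + d1 < l1 := by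
      have := hd1 0 zero_le
      rwa [add_zero, ← zero_add d1] at this
    have h := h2 p1 l1 (0 + d1) (q' + (n + d2)) (m + w) hd0
      (hB1 0 (hone 0 zero_le)) w1 w2
    have hlt : m + w + (n + d2 + d1) < m + w + (m + w) + n + d2 + l1 := by
      have e1 : m + w + (m + w) + n + d2 + l1 = (m + w) + (m + w + (n + d2 + l1)) := by ring
      rw [e1]
      rw [zero_add] at hd0
      exact lt_of_lt_of_le (by gcongr) le_add_self
    have e2 : q' + (n + d2) + (m + w) + (0 + d1) = q' + (m + w + (n + d2 + d1)) := by ring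
    rw [e2, ← hq' _ hlt] at h
    rw [h, hq0 0 (hone 0 zero_le)]
    have h6 := hE1.2 0 (hone 0 zero_le)
    have e3 : p1 + (0 + d1) = p1 + d1 + 0 := by ring
    rw [e3]
    exact h6

end Pool.Agent.Work.MP_69fea5_lc.H2
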