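import Pool.Agent.Work.MP_69fea5_lc.H2.Basic

/-!
Item GLIM: the double limit.
-/

set_option autoImplicit false
set_option linter.unusedSectionVars false

namespace Pool.Agent.Work.MP_69fea5_lc.H2

universe u

namespace I_GLIM

variable {N : Type u} [CommSemiring N] [LinearOrder N] [IsStrictOrderedRing N]
  [CanonicallyOrderedAdd N]

/-- the relation whose limit along `B'` is taken -/
def P (H : Set N) (m t b : N) : Prop := ∃ x, x + t = b + m ∧ x ∈ H

theorem P_shift (H : Set N) (m t r b : N) : P H (m + r) (t + r) b ↔ P H m t b := by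
  constructor
  · rintro ⟨x, h, hx⟩
    refine ⟨x, ?_, hx⟩
    have h1 : x + t + r = b + m + r := by rw [add_assoc, h, add_assoc]
    exact add_right_cancel h1
  · rintro ⟨x, h, hx⟩
    refine ⟨x, ?_, hx⟩
    rw [← add_assoc, h, add_assoc]

theorem dich {H B' : Set N} (hU : Unb B')
    (h1 : ∀ n, Ev B' (fun b => b + n ∈ H) ∨ Ev B' (fun b => ¬ (b + n ∈ H)))
    (h2 : ∀ n, Ev B' (fun b => ∃ x, x + n = b ∧ x ∈ H) ∨
      Ev B' (fun b => ¬ ∃ x, x + n = b ∧ x ∈ H)) (m t : N) :
    Ev B' (fun b => (P H m t b ↔ Ev B' (P H m t))) := by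
  have key : Ev B' (P H m t) ∨ Ev B' (fun b => ¬ P H m t b) := by
    rcases le_total t m with h | h
    · obtain ⟨n, rfl⟩ := exists_add h
      have e : ∀ b, P H (t + n) t b ↔ b + n ∈ H := by
        intro b
        constructor
        · rintro ⟨x, hx, hxH⟩
          have h3 : x + t = b + n + t := by rw [hx, add_assoc, add_comm t n]
          rwa [← add_right_cancel h3]
        · intro hb
          exact ⟨b + n, by rw [add_assoc, add_comm n t], hb⟩
      rcases h1 n with h3 | h3
      · exact Or.inl (h3.mono fun b _ hb => (e b).2 hb)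
      · exact Or.inr (h3.mono fun b _ hb hP => hb ((e b).1 hP))
    · obtain ⟨n, rfl⟩ := exists_add h
      have e : ∀ b, P H m (m + n) b ↔ ∃ x, x + n = b ∧ x ∈ H := by
        intro b
        constructor
        · rintro ⟨x, hx, hxH⟩
          refine ⟨x, ?_, hxH⟩
          have h3 : x + n + m = b + m := by rw [add_assoc, add_comm n m, hx]
          exact add_right_cancel h3
        · rintro ⟨x, hx, hxH⟩
          refine ⟨x, ?_, hxH⟩
          rw [← hx, add_comm m n, add_assoc]
      rcases h2 n with h3 | h3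
      · exact Or.inl (h3.mono fun b _ hb => (e b).2 hb)
      · exact Or.inr (h3.mono fun b _ hb hP => hb ((e b).1 hP))
  rcases key with h | h
  · exact h.mono fun b _ hb => ⟨fun _ => h, fun _ => hb⟩
  · refine h.mono fun b _ hb => ⟨fun hP => absurd hP hb, fun hE => ?_⟩
    obtain ⟨b', _, _, h3, h4⟩ := Ev.exists hU (h.and hE) 0
    exact absurd h4 h3

variable {S : Set (Set N)}

/-- definability of `P` in the context `(b, m, t)` -/
theorem dP (hS : Good S) {H : Set N} (hH : H ∈ S) {α : Type u} [Cx N α] {m t b : α → N}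
    (hm : DF S m) (ht : DF S t) (hb : DF S b) : D S fun a => P H (m a) (t a) (b a) := by
  refine D.ex (R := fun x a => x + t a = b a + m a ∧ x ∈ H) ?_
  exact (D.eq (DF.add hS (DF.v0 hS) ht.wk) (DF.add hS hb.wk hm.wk)).and (D.mem hH (DF.v0 hS))

theorem dG (hS : Good S) {H B' : Set N} (hH : H ∈ S) (hB' : B' ∈ S) {α : Type u} [Cx N α]
    {m t : α → N} (hm : DF S m) (ht : DF S t) : D S fun a => Ev B' (P H (m a) (t a)) :=
  D.Ev hS hB' (P := fun b a => P H (m a) (t a) b) (dP hS hH hm.wk ht.wk (DF.v0 hS))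

end I_GLIM

open I_GLIM in
theorem GLIM_pf (hCOH : S_COH.{u}) : S_GLIM.{u} := by
  intro N _ _ _ _ S hS C hC Y hY B hB H hH hUB hlim hwin
  obtain ⟨B1, hB1, hB1B, hU1, hR1⟩ := hCOH N S hS (fun n b => b + n ∈ H)
    (D.mem hH (DF.add hS (DF.v1 hS) (DF.v0 hS))) B hB hUB
  obtain ⟨B', hB', hB'B1, hU', hR2⟩ := hCOH N S hS (fun n b => ∃ x, x + n = b ∧ x ∈ H)
    (D.ex (R := fun x (p : N × N × PUnit.{u + 1}) => x + p.1 = p.2.1 ∧ x ∈ H)
      ((D.eq (DF.add hS (DF.v0 hS) (DF.v1 hS)) (DF.v2 hS)).and (D.mem hH (DF.v0 hS)))) B1 hB1 hU1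
  have hd := dich hU' (fun n => (hR1 n).imp (Ev.subset hB'B1) (Ev.subset hB'B1)) hR2
  -- uniform version
  have hball : ∀ m l, Ev B' fun b => ∀ t < l, (P H m t b ↔ Ev B' (P H m t)) := by
    intro m l
    refine Ev.ball hS hB' (R := fun t b => (P H m t b ↔ Ev B' (P H m t))) ?_ l
      fun t _ => hd m t
    exact (dP hS hH (DF.const hS m) (DF.v0 hS) (DF.v1 hS)).iff
      (dG hS hH hB' (DF.const hS m) (DF.v0 hS))
  refine ⟨B', fun m t => Ev B' (P H m t), hB', hU', ?_, ?_, ?_, ?_⟩
  · exact dG hS hH hB' (DF.v0 hS) (DF.v1 hS)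
  · intro m t r
    constructor
    · exact fun h => h.mono fun b _ hb => (P_shift H m t r b).1 hb
    · exact fun h => h.mono fun b _ hb => (P_shift H m t r b).2 hb
  · intro m l
    obtain ⟨b, _, hlb, hb⟩ := Ev.exists hU' (hball m l) l
    obtain ⟨q, hq⟩ := hwin (b + m)
    refine ⟨q, fun t ht => ?_⟩
    rw [← hb t ht]
    have htb : t ≤ b + m := (ht.le.trans hlb).trans le_self_add
    obtain ⟨x, hx⟩ := exists_add htb
    have hx' : x + t = b + m := by rw [hx, add_comm]
    rw [← hq x t hx']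
    constructor
    · rintro ⟨x', h1, h2⟩
      have : x' = x := add_right_cancel (h1.trans hx'.symm)
      rwa [← this]
    · exact fun h => ⟨x, hx', h⟩
  · intro l
    refine ((hball 0 l).and (Ev.ge B' l)).mono fun b hbB hb => ?_
    obtain ⟨hb1, hb2⟩ := hb
    refine (((hlim b).subset hB1B).subset hB'B1).mono fun b' _ hb' t ht z hz => ?_
    have htb : t ≤ b := ht.le.trans hb2
    obtain ⟨w, hw⟩ := exists_add htb
    have h1 : z + t + w = b' := by rw [add_assoc, ← hw, hz]
    have hwb : w ≤ b := by rw [hw]; exact le_add_self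
    rw [hb' w hwb (z + t) h1, ← hb1 t ht]
    constructor
    · intro h
      exact ⟨w, by rw [add_zero, hw, add_comm], h⟩
    · rintro ⟨x, hx, hxH⟩
      have h2 : x + t = w + t := by rw [hx, add_zero, hw, add_comm]
      rwa [← add_right_cancel h2]

end Pool.Agent.Work.MP_69fea5_lc.H2
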