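import Pool.Agent.Work.MP_69fea5_lc.H2.Basic

set_option autoImplicit false

namespace Pool.Agent.Work.MP_69fea5_lc.H2

universe u

theorem GRD_pf (hCV : S_CV.{u}) : S_GRD.{u} := by
  intro N _ _ _ _ S hS C hC g hg hx
  obtain ⟨X, hXS, hX⟩ := hCV N S hS
    (fun x F => 0 < x ∧ (x ∈ C ↔ g 0) ∧ (g x ↔ g 0) ∧ ∀ y < x, y ∈ F → (x + y ∈ C ↔ g 0))
    (by
      intro x F F' h
      refine and_congr_right fun _ => and_congr_right fun _ => and_congr_right fun _ => ?_
      exact forall_congr' fun y => forall_congr' fun hy => by rw [h y hy])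
    (by
      refine (D.lt hS (DF.zero hS) (DF.v0 hS)).and (D.and ?_ (D.and ?_ ?_))
      · exact (D.mem hC (DF.v0 hS)).iff (D.const hS (g 0))
      · exact (D.comp1 (R := g) hg (DF.v0 hS)).iff (D.const hS (g 0))
      · refine D.ball hS (R := fun y (p : N × N × N × PUnit.{u + 1}) =>
          y ∈ bs p.2.1 p.2.2.1 → (p.1 + y ∈ C ↔ g 0)) ?_ (DF.v0 hS)
        refine D.imp ?_ ?_
        · exact D.bs hS (DF.v0 hS) (DF.v2 hS) (DF.v3 hS)
        · exact (D.mem hC (DF.add hS (DF.v1 hS) (DF.v0 hS))).iff (D.const hS (g 0)))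
  refine ⟨X, hXS, ?_, ?_⟩
  · intro m
    by_contra hc
    push Not at hc
    obtain ⟨x, hmx, hs, hgx⟩ := hx (m + 1)
    have hm : m < x := lt_of_lt_of_le (Good.lt_succ_self m) hmx
    have hxX : x ∈ X := by
      refine (hX x).2 ⟨lt_of_le_of_lt zero_le hm, ?_, hgx, ?_⟩
      · have := hs 0 zero_le
        rwa [add_zero] at this
      · intro y _ hyX
        have hym : y < m := hc y hyX
        exact (hs y (hym.le.trans (Good.lt_succ_self m).le)).trans ((hX y).1 hyX).2.2.1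
    exact absurd (hc x hxX) (not_lt.2 hm.le)
  · intro x hxX
    obtain ⟨h1, h2, _, h4⟩ := (hX x).1 hxX
    exact ⟨h1, h2, fun y hy hyx => h4 y hyx hy⟩

end Pool.Agent.Work.MP_69fea5_lc.H2
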