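import Pool.Agent.Work.MP_69fea5_lc.H2.Basic

set_option autoImplicit false
set_option linter.unusedSectionVars false

namespace Pool.Agent.Work.MP_69fea5_lc.H2

universe u

theorem HLIM_pf (hCOH : S_COH.{u}) : S_HLIM.{u} := by
  intro N _ _ _ _ S hS C hC Y hY hex
  obtain ⟨B0, hB0, hU0, h0⟩ := hex
  have hD : D S fun p : N × N × PUnit.{u + 1} => ∃ x, x + p.1 = p.2.1 ∧ x ∈ C := by
    refine D.ex (R := fun x (p : N × N × PUnit.{u + 1}) => x + p.1 = p.2.1 ∧ x ∈ C) ?_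
    exact (D.eq (DF.add hS (DF.v0 hS) (DF.v1 hS)) (DF.v2 hS)).and (D.mem hC (DF.v0 hS))
  obtain ⟨B, hB, hBB, hU, hcoh⟩ := hCOH N S hS (fun n b => ∃ x, x + n = b ∧ x ∈ C) hD B0 hB0 hU0
  have hHS : {t : N | Ev B fun b => ∃ x, x + t = b ∧ x ∈ C} ∈ S := by
    refine D.set0 hS (R := fun t => Ev B fun b => ∃ x, x + t = b ∧ x ∈ C) ?_
    refine D.Ev hS hB (P := fun b (a : N × PUnit.{u + 1}) => ∃ x, x + a.1 = b ∧ x ∈ C) ?_
    refine D.ex (R := fun x (p : N × N × PUnit.{u + 1}) => x + p.2.1 = p.1 ∧ x ∈ C) ?_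
    exact (D.eq (DF.add hS (DF.v0 hS) (DF.v2 hS)) (DF.v1 hS)).and (D.mem hC (DF.v0 hS))
  have h1 : ∀ m, Ev B fun b => ∀ t ≤ m, ∀ x, x + t = b →
      (x ∈ C ↔ t ∈ {t : N | Ev B fun b => ∃ x, x + t = b ∧ x ∈ C}) := by
    intro m
    have hb : Ev B fun b => ∀ t < m + 1, ∀ x, x + t = b →
        (x ∈ C ↔ t ∈ {t : N | Ev B fun b => ∃ x, x + t = b ∧ x ∈ C}) := by
      refine Ev.ball hS hB (R := fun t b => ∀ x, x + t = b →
        (x ∈ C ↔ t ∈ {t : N | Ev B fun b => ∃ x, x + t = b ∧ x ∈ C})) ?_ (m + 1) ?_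
      · refine D.all (R := fun x (p : N × N × PUnit.{u + 1}) => x + p.1 = p.2.1 →
          (x ∈ C ↔ p.1 ∈ {t : N | Ev B fun b => ∃ x, x + t = b ∧ x ∈ C})) ?_
        exact (D.eq (DF.add hS (DF.v0 hS) (DF.v1 hS)) (DF.v2 hS)).imp
          (D.iff (D.mem hC (DF.v0 hS)) (D.mem hHS (DF.v1 hS)))
      · intro t _
        rcases hcoh t with h | h
        · refine h.mono fun b _ hb x hx => ?_
          obtain ⟨x', hx', hx'C⟩ := hb
          have e : x = x' := add_right_cancel (hx.trans hx'.symm)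
          subst e
          exact ⟨fun _ => h, fun _ => hx'C⟩
        · refine h.mono fun b _ hb x hx => ?_
          refine ⟨fun hxC => absurd ⟨x, hx, hxC⟩ hb, fun ht => ?_⟩
          obtain ⟨b', _, _, hb1, hb2⟩ := Ev.exists hU (Ev.and ht h) 0
          exact absurd hb1 hb2
    exact hb.mono fun b _ hb t ht => hb t ((hS.lt_succ t m).2 ht)
  refine ⟨B, hB, _, hHS, hU, h1, fun m => ?_⟩
  obtain ⟨b, _, _, hb1, x, q, hxm, hW⟩ := Ev.exists hU (Ev.and (h1 m) (Ev.subset hBB (h0 m))) 0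
  refine ⟨q, fun t t' htt => ?_⟩
  have ht : t ≤ m := by rw [← htt]; exact le_self_add
  have ht' : t' < m + 1 := (hS.lt_succ t' m).2 (by rw [← htt, add_comm]; exact le_self_add)
  have e : x + t' + t = b := by rw [← hxm, ← htt, add_assoc, add_comm t' t]
  exact (hb1 t ht (x + t') e).symm.trans (hW t' ht')

end Pool.Agent.Work.MP_69fea5_lc.H2
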