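import Pool.Agent.Work.MP_69fea5_lc.H2.Basic

/-!
INV: two different moduli `1 + (i+1) m`, `1 + (k+1) m` are coprime (in Bezout form) when `m` is
divisible by all numbers up to `n`.
-/

set_option autoImplicit false

namespace Pool.Agent.Work.MP_69fea5_lc.H2

universe u

theorem INV_pf : S_INV.{u} := by
  intro N _ _ _ _ S hS n m hm hdiv i k hi hk hik
  have pos_succ : ∀ x : N, 0 < x → ∃ y, x = y + 1 := fun x hx => by
    obtain ⟨c, hc⟩ := exists_add (hS.succ_le hx)
    exact ⟨c, by rw [hc]; ring⟩
  rcases lt_or_gt_of_ne hik with h | h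
  · -- i < k
    obtain ⟨e, he⟩ := exists_add h.le
    have hepos : 0 < e := by
      rcases eq_or_lt_of_le (zero_le (a := e)) with h0 | h0
      · rw [← h0, add_zero] at he
        exact absurd he.symm hik
      · exact h0
    have hen : e ≤ n := by
      have h1 : e ≤ k := by rw [he]; exact le_add_self
      exact h1.trans hk.le
    obtain ⟨m', hm'⟩ := hdiv e hepos hen
    have hQpos : 0 < m * (k + 1) := mul_pos hm (lt_of_lt_of_le one_pos le_add_self)
    obtain ⟨Q', hQ'⟩ := pos_succ _ hQpos
    refine ⟨m' * (k + 1) * (k + 1) * (m * (k + 1)),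
      (m * (k + 1)) * (m' * (k + 1) * (i + 1)) + Q', ?_⟩
    have h0 : m' * (k + 1) * (k + 1) * (1 + (i + 1) * m)
        = m' * (k + 1) * (i + 1) * (1 + (k + 1) * m) + m * (k + 1) := by
      rw [hm', he]; ring
    calc m' * (k + 1) * (k + 1) * (m * (k + 1)) * (1 + (i + 1) * m)
        = (m * (k + 1)) * (m' * (k + 1) * (k + 1) * (1 + (i + 1) * m)) := by ring
      _ = (m * (k + 1)) * (m' * (k + 1) * (i + 1) * (1 + (k + 1) * m))
            + (m * (k + 1)) * (m * (k + 1)) := by rw [h0]; ring
      _ = (m * (k + 1)) * (m' * (k + 1) * (i + 1) * (1 + (k + 1) * m))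
            + (Q' * (1 + m * (k + 1)) + 1) := by
          congr 1
          rw [hQ']; ring
      _ = 1 + ((m * (k + 1)) * (m' * (k + 1) * (i + 1)) + Q') * (1 + (k + 1) * m) := by ring
  · -- k < i
    obtain ⟨e, he⟩ := exists_add (le_of_lt h)
    have hepos : 0 < e := by
      rcases eq_or_lt_of_le (zero_le (a := e)) with h0 | h0
      · rw [← h0, add_zero] at he
        exact absurd he hik
      · exact h0
    have hen : e ≤ n := by
      have h1 : e ≤ i := by rw [he]; exact le_add_self
      exact h1.trans hi.le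
    obtain ⟨m', hm'⟩ := hdiv e hepos hen
    have hm'pos : 0 < m' := by
      rcases eq_or_lt_of_le (zero_le (a := m')) with h0 | h0
      · rw [← h0, mul_zero] at hm'
        exact absurd hm (by rw [hm']; exact lt_irrefl _)
      · exact h0
    have hTpos : 0 < m' * (k + 1) * (i + 1) :=
      mul_pos (mul_pos hm'pos (lt_of_lt_of_le one_pos le_add_self))
        (lt_of_lt_of_le one_pos le_add_self)
    obtain ⟨T', hT'⟩ := pos_succ _ hTpos
    refine ⟨m' * (k + 1) * (k + 1), T', ?_⟩
    have h0 : m' * (k + 1) * (k + 1) * (1 + (i + 1) * m) + (1 + (k + 1) * m)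
        = m' * (k + 1) * (i + 1) * (1 + (k + 1) * m) + 1 := by
      rw [hm', he]; ring
    rw [hT'] at h0
    have h1 : m' * (k + 1) * (k + 1) * (1 + (i + 1) * m) + (1 + (k + 1) * m)
        = (1 + T' * (1 + (k + 1) * m)) + (1 + (k + 1) * m) := by
      rw [h0]; ring
    exact add_right_cancel h1

end Pool.Agent.Work.MP_69fea5_lc.H2
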