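import Pool.Agent.Work.MP_69fea5_lc.H2.Basic

/-!
Block [69fea5 H2], item LCM: common multiples of `1, ..., n`.
-/

set_option autoImplicit false

namespace Pool.Agent.Work.MP_69fea5_lc.H2

universe u

theorem LCM_pf : S_LCM.{u} := by
  intro N _ _ _ _ S hS n
  refine D.induct hS (R := fun n : N => ∃ m, 0 < m ∧ ∀ j, 0 < j → j ≤ n → j ∣ m) ?_ ?_ ?_ n
  · refine D.ex (R := fun m (p : N × PUnit.{u + 1}) => 0 < m ∧ ∀ j, 0 < j → j ≤ p.1 → j ∣ m) ?_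
    refine D.and (D.lt hS (DF.zero hS) (DF.v0 hS)) ?_
    refine D.all (R := fun j (p : N × N × PUnit.{u + 1}) => 0 < j → j ≤ p.2.1 → j ∣ p.1) ?_
    exact (D.lt hS (DF.zero hS) (DF.v0 hS)).imp
      ((D.le hS (DF.v0 hS) (DF.v2 hS)).imp (D.dvd hS (DF.v0 hS) (DF.v1 hS)))
  · exact ⟨1, one_pos, fun j h1 h2 => absurd h1 (not_lt.2 h2)⟩
  · rintro n ⟨m, hm, h⟩
    refine ⟨m * (n + 1), mul_pos hm (lt_of_le_of_lt zero_le (Good.lt_succ_self n)), ?_⟩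
    intro j h1 h2
    rcases h2.lt_or_eq with h3 | h3
    · exact (h j h1 (hS.le_of_lt_succ h3)).mul_right _
    · rw [h3]
      exact dvd_mul_left _ _

end Pool.Agent.Work.MP_69fea5_lc.H2
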