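import Pool.Agent.Work.MP_69fea5_lc.H2.Basic

/-!
Assembly of the steps: existence of a minimal sequence (`MIN_pf`) and the main theorem (`MAIN_pf`).
-/

set_option autoImplicit false
set_option linter.unusedVariables false

namespace Pool.Agent.Work.MP_69fea5_lc.H2

universe u

/-- the limit of the double limit restricted to nonnegative integers is definable -/
theorem I_MAIN.dfn_zero {N : Type u} [CommSemiring N] [LinearOrder N] {S : Set (Set N)}
    (hS : Good S) {G : N → N → Prop} (h : D S fun p : N × N × PUnit.{u + 1} => G p.1 p.2.1) :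
    D S fun p : N × PUnit.{u + 1} => G 0 p.1 :=
  D.comp2 (α := N × PUnit.{u + 1}) (R := G) h (DF.zero hS) (DF.v0 hS)

theorem MIN_pf (hCV : S_CV.{u}) (hFORB : S_FORB.{u}) (hBKA : S_BKA.{u}) (hBKB : S_BKB.{u})
    (hBKC : S_BKC.{u}) (hBKY : S_BKY.{u}) (hBKP : S_BKP.{u}) (hBKM : S_BKM.{u}) :
    ∀ (N : Type u) [CommSemiring N] [LinearOrder N] [IsStrictOrderedRing N]
      [CanonicallyOrderedAdd N] (S : Set (Set N)), Good S → ∀ C ∈ S, ∃ Y ∈ S, Min C Y := by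
  intro N _ _ _ _ S hS C hC
  obtain ⟨A, hA, hF⟩ := hFORB N S hS C hC
  have hfree := hBKA N S hS C hC A hA hF
  obtain ⟨Y, hY, hYdef⟩ := hBKY N S hS C hC A hA
  have hP := hBKP N S hS C hC A hA hF hfree Y hY hYdef
  exact ⟨Y, hY, hBKM N S hS C A Y hF hfree hP⟩

theorem MAIN_pf (hMIN : ∀ (N : Type u) [CommSemiring N] [LinearOrder N] [IsStrictOrderedRing N]
      [CanonicallyOrderedAdd N] (S : Set (Set N)), Good S → ∀ C ∈ S, ∃ Y ∈ S, Min C Y)
    (hC1 : S_C1.{u}) (hMONO : S_MONO.{u}) (hMID : S_MID.{u}) (hALLC : S_ALLC.{u})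
    (hSEQ : S_SEQ.{u}) (hHLIM : S_HLIM.{u}) (hGLIM : S_GLIM.{u}) (hPAR : S_PAR.{u})
    (hPIG : S_PIG.{u}) (hFIN : S_FIN.{u}) (hGRD : S_GRD.{u}) : S_MAIN.{u} := by
  intro N _ _ _ _ S hS C hC
  obtain ⟨Y, hY, hMin⟩ := hMIN N S hS C hC
  by_cases hBD : BD C Y
  · have hseq := hSEQ N S hS C hC Y hY hMin
    obtain ⟨B, hB, H, hH, hU, h1, h2⟩ := hHLIM N S hS C hC Y hY hseq
    obtain ⟨B', G, hG⟩ := hGLIM N S hS C hC Y hY B hB H hH hU h1 h2
    have hpar := hPAR N S hS Y hMin.recur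
    have hpig := hPIG N S hS C hC Y hY B' G hG hpar
    have hmid := hMID N S hS C Y hMin hBD
    have hallc := hALLC N S hS C hC Y hY hBD
    have hfin := hFIN N S hS C hC Y hY B' G hG hpig hmid hallc
    exact ⟨G 0 0, hGRD N S hS C hC (G 0) (I_MAIN.dfn_zero hS hG.dfn) hfin⟩
  · exact hC1 N S hS C hC Y hY hMin hBD

end Pool.Agent.Work.MP_69fea5_lc.H2
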