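import Pool.Agent.Work.MP_69fea5_lc.H2.Basic

/-!
Item MID: the midpoint lemma.
-/

set_option autoImplicit false

namespace Pool.Agent.Work.MP_69fea5_lc.H2

universe u

theorem MID_pf : S_MID.{u} := by
  intro N _ _ _ _ S hS C Y hMin hBD p l i a t hi hB ha hat
  have hit : i + t < l + (t + t) := by
    have h0 := zero_le (a := t)
    grind
  obtain ⟨p1, l1, d, hExt, n1, hn1⟩ := hBD a (l + (t + t)) (i + t) hit
  obtain ⟨n, hn⟩ := hB
  obtain ⟨s, hs, hW⟩ := hMin.far p1 l1 (max n n1)
  have e1 := hn1 s ((le_max_right _ _).trans hs) hW p1 (W.refl _ _ _)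
  have e2 : p1 + (i + t + d) ∈ Y ↔ a + (i + t) ∈ Y := by
    have h := hExt.2 (i + t) hit
    have e : p1 + (i + t + d) = p1 + d + (i + t) := by ring
    rw [e]
    exact h
  have hl1 := hExt.1
  have hW1 : W C (s + (d + (t + t))) Y (p1 + (d + (t + t))) l :=
    hW.sub (by grind)
  have hW2 : W Y (p1 + d + (t + t)) Y (a + (t + t)) l :=
    hExt.2.sub (by grind)
  have hW3 : W Y (p1 + d + 0) Y (a + 0) l :=
    hExt.2.sub (by
      have h0 := zero_le (a := t)
      grind)
  rw [add_zero, add_zero] at hW3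
  have hWs : W C (s + (d + (t + t))) Y p l := by
    refine hW1.trans ?_
    rw [← add_assoc p1 d (t + t)]
    exact hW2.trans hat
  have hWq : W Y (p1 + d) Y p l := hW3.trans ha
  have e3 := hn (s + (d + (t + t))) (((le_max_left _ _).trans hs).trans le_self_add) hWs
    (p1 + d) hWq
  have e4 : p1 + (i + t + d) + (s + (i + t + d)) = p1 + d + i + (s + (d + (t + t)) + i) := by
    ring
  rw [e4] at e1
  have e5 : a + t + i = a + (i + t) := by ring
  rw [e5]
  tauto

end Pool.Agent.Work.MP_69fea5_lc.H2
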