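import Pool.Agent.Work.MP_69fea5_lc.H2.Basic

/-!
Item MONO: extensions of blocked words are blocked.
-/

set_option autoImplicit false

namespace Pool.Agent.Work.MP_69fea5_lc.H2

universe u

theorem MONO_pf : S_MONO.{u} := by
  intro N _ _ _ _ S _ C Y p' l' d p l i hext hil hblk
  obtain ⟨n, hn⟩ := hblk
  refine ⟨n, fun s hs hW q hq => ?_⟩
  have h1 : W C (s + d) Y p l := (hW.sub hext.1).trans hext.2
  have h2 : W Y (q + d) Y p l := (hq.sub hext.1).trans hext.2
  have h3 := hn (s + d) (hs.trans le_self_add) h1 (q + d) h2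
  have h4 := hext.2 i hil
  have e1 : q + (i + d) + (s + (i + d)) = q + d + i + (s + d + i) := by ring
  have e2 : p' + (i + d) = p' + d + i := by ring
  rw [e1, e2, h3, not_iff_not]
  exact h4.symm

end Pool.Agent.Work.MP_69fea5_lc.H2
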