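import Pool.Agent.Work.MP_69fea5_lc.H2.Basic

/-!
Block [69fea5 H2], item PAR: occurrences of the right parity.
-/

set_option autoImplicit false

namespace Pool.Agent.Work.MP_69fea5_lc.H2

universe u

namespace I_PAR

section

variable {N : Type u} [CommSemiring N] [LinearOrder N] [IsStrictOrderedRing N]
  [CanonicallyOrderedAdd N]

theorem no_odd {S : Set (Set N)} (hS : Good S) {c d : N} (h : c + c = d + d + 1) : False := by
  rcases le_or_gt c d with h1 | h1
  · have h2 : c + c ≤ d + d := add_le_add h1 h1
    have h3 : d + d < d + d + 1 := Good.lt_succ_self _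
    exact absurd h (ne_of_lt (h2.trans_lt h3))
  · have h2 : d + 1 ≤ c := hS.succ_le h1
    have h3 : (d + 1) + (d + 1) ≤ c + c := add_le_add h2 h2
    have h4 : d + d + 1 < (d + 1) + (d + 1) := by
      have e : (d + 1) + (d + 1) = d + d + 1 + 1 := by ring
      rw [e]
      exact Good.lt_succ_self _
    exact absurd h.symm (ne_of_lt (h4.trans_le h3))

end

end I_PAR

open I_PAR in
theorem PAR_pf : S_PAR.{u} := by
  intro N _ _ _ _ S hS Y hY p l
  by_cases hA : ∃ a t, W Y a Y p l ∧ W Y (a + (t + t + 1)) Y p l
  · obtain ⟨a, t, h1, h2⟩ := hA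
    obtain ⟨r, hr⟩ := hY a (t + t + 1 + l)
    have key : ∀ q, ∃ v < r + (t + t + 1), W Y (q + v) Y p l ∧ ∃ n, v = n + n := by
      intro q
      obtain ⟨w, hw, hW⟩ := hr q
      have hz : (0 : N) + l ≤ t + t + 1 + l := by
        rw [zero_add]
        exact le_add_self
      have e1 := (hW.sub hz)
      rw [add_zero, add_zero] at e1
      have e2 := (hW.sub (le_refl (t + t + 1 + l)))
      obtain ⟨y, hy | hy⟩ := hS.parity w
      · exact ⟨w, hw.trans_le le_self_add, e1.trans h1, y, hy⟩
      · refine ⟨w + (t + t + 1), add_lt_add_of_lt_of_le hw le_rfl, ?_, y + t + 1, ?_⟩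
        · rw [← add_assoc]
          exact e2.trans h2
        · rw [hy]
          ring
    refine ⟨r + (t + t + 1), fun q e => ?_⟩
    obtain ⟨v, hv, hWv, y, hy⟩ := key q
    obtain ⟨u, hu, hWu, y', hy'⟩ := key (q + (e + e))
    exact ⟨u, hu, v, hv, hWv, hWu, y' + y, by rw [hy, hy']; ring⟩
  · obtain ⟨r, hr⟩ := hY p l
    refine ⟨r, fun q e => ?_⟩
    obtain ⟨v, hv, hWv⟩ := hr q
    obtain ⟨u, hu, hWu⟩ := hr (q + (e + e))
    refine ⟨u, hu, v, hv, hWv, hWu, ?_⟩
    rcases le_total (q + v) (q + (e + e) + u) with hle | hle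
    · obtain ⟨c, hc⟩ := exists_add hle
      obtain ⟨y, hy | hy⟩ := hS.parity c
      · rw [hy] at hc
        have h3 : (e + e) + u = v + (y + y) := by
          apply add_left_cancel (a := q)
          rw [← add_assoc, hc]
          ring
        obtain ⟨n, hn | hn⟩ := hS.parity (u + v)
        · exact ⟨n, hn⟩
        · exfalso
          apply no_odd hS (c := v + y) (d := n + e)
          calc (v + y) + (v + y) = (v + (y + y)) + v := by ring
            _ = ((e + e) + u) + v := by rw [h3]
            _ = (u + v) + (e + e) := by ring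
            _ = (n + n + 1) + (e + e) := by rw [hn]
            _ = (n + e) + (n + e) + 1 := by ring
      · exfalso
        refine hA ⟨q + v, y, hWv, ?_⟩
        rw [← hy, ← hc]
        exact hWu
    · obtain ⟨c, hc⟩ := exists_add hle
      obtain ⟨y, hy | hy⟩ := hS.parity c
      · rw [hy] at hc
        have h3 : v = (e + e) + u + (y + y) := by
          apply add_left_cancel (a := q)
          rw [hc]
          ring
        exact ⟨u + e + y, by rw [h3]; ring⟩
      · exfalso
        refine hA ⟨q + (e + e) + u, y, hWu, ?_⟩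
        rw [← hy, ← hc]
        exact hWv

end Pool.Agent.Work.MP_69fea5_lc.H2
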