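import Pool.Agent.Work.MP_69fea5_lc.H2.Basic

set_option autoImplicit false
set_option linter.unusedSectionVars false

namespace Pool.Agent.Work.MP_69fea5_lc.H2

universe u

namespace I_PIG

variable {N : Type u} [CommSemiring N] [LinearOrder N]
variable {S : Set (Set N)} {α : Type u} [Cx N α]

/-- good offsets -/
def good (G : N → N → Prop) (Y : Set N) (p l b u v : N) : Prop :=
  (∀ k < l, (G (4 * b) (v + k) ↔ p + k ∈ Y)) ∧ (∀ k < l, (G 0 (4 * b + u + k) ↔ p + k ∈ Y))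

theorem D.good (hS : Good S) {G : N → N → Prop}
    (hG : D S fun p : N × N × PUnit.{u + 1} => G p.1 p.2.1) {Y : Set N} (hY : Y ∈ S)
    (p l : N) {b u v : α → N} (hb : DF S b) (hu : DF S u) (hv : DF S v) :
    D S fun a => good G Y p l (b a) (u a) (v a) := by
  refine D.and ?_ ?_
  · refine D.ball hS (R := fun k a => (G (4 * b a) (v a + k) ↔ p + k ∈ Y)) ?_ (DF.const hS l)
    refine D.iff ?_ ?_
    · exact D.comp2 hG (DF.mul hS (DF.const hS 4) hb.wk) (DF.add hS hv.wk (DF.v0 hS))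
    · exact D.mem hY (DF.add hS (DF.const hS p) (DF.v0 hS))
  · refine D.ball hS (R := fun k a => (G 0 (4 * b a + u a + k) ↔ p + k ∈ Y)) ?_ (DF.const hS l)
    refine D.iff ?_ ?_
    · exact D.comp2 hG (DF.zero hS)
        (DF.add hS (DF.add hS (DF.mul hS (DF.const hS 4) hb.wk) hu.wk) (DF.v0 hS))
    · exact D.mem hY (DF.add hS (DF.const hS p) (DF.v0 hS))

theorem D.even (hS : Good S) {u v : α → N} (hu : DF S u) (hv : DF S v) :
    D S fun a => ∃ n, u a + v a = n + n :=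
  D.ex (R := fun n a => u a + v a = n + n)
    (D.eq (DF.add hS hu.wk hv.wk) (DF.add hS (DF.v0 hS) (DF.v0 hS)))

variable [IsStrictOrderedRing N] [CanonicallyOrderedAdd N]

theorem exists_good {C Y B : Set N} {G : N → N → Prop} (h : TwoLim S C Y B G)
    {p l L : N} (hL : ∀ q e, ∃ u < L, ∃ v < L, W Y (q + v) Y p l ∧
      W Y (q + (e + e) + u) Y p l ∧ ∃ n, u + v = n + n) (b : N) :
    ∃ u < L, ∃ v < L, (∃ n, u + v = n + n) ∧ good G Y p l b u v := by
  obtain ⟨q, hq⟩ := h.win (4 * b) (4 * b + 4 * b + L + l)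
  obtain ⟨u, hu, v, hv, h1, h2, h3⟩ := hL q (4 * b)
  refine ⟨u, hu, v, hv, h3, ?_, ?_⟩
  · intro k hk
    have hlt : v + k < 4 * b + 4 * b + L + l := by
      have h0 : (0 : N) ≤ 4 * b := zero_le
      have := add_lt_add hv hk
      grind
    rw [hq (v + k) hlt, ← add_assoc]
    exact h1 k hk
  · intro k hk
    have hlt : 4 * b + u + k + 4 * b < 4 * b + 4 * b + L + l := by
      have := add_lt_add hu hk
      grind
    rw [← h.shift 0 (4 * b + u + k) (4 * b), zero_add, hq _ hlt]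
    have := h2 k hk
    rw [← this]
    have e : q + (4 * b + u + k + 4 * b) = q + (4 * b + 4 * b) + u + k := by ring
    rw [e]

end I_PIG

open I_PIG in
theorem PIG_pf : S_PIG.{u} := by
  intro N _ _ _ _ S hS C hC Y hY B G h hpar p l
  obtain ⟨L, hL⟩ := hpar p l
  by_contra hcon
  push Not at hcon
  have hbad : ∀ u v : N, ∃ z, ∀ b, z ≤ b → (b ∈ B → (∃ n, u + v = n + n) →
      ¬ good G Y p l b u v) := by
    intro u v
    by_cases he : ∃ n, u + v = n + n
    · obtain ⟨n, hn⟩ := he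
      obtain ⟨z, hz⟩ := hcon u v n hn
      refine ⟨z, fun b hzb hb _ hg => ?_⟩
      obtain ⟨k, hk, hk'⟩ := hz b hb hzb hg.1
      rcases hk' with ⟨h1, h2⟩ | ⟨h1, h2⟩
      · exact h2 ((hg.2 k hk).1 h1)
      · exact h1 ((hg.2 k hk).2 h2)
    · exact ⟨0, fun b _ _ h' => absurd h' he⟩
  have step : ∀ u : N, ∃ z, ∀ b, z ≤ b → ∀ v < L, (b ∈ B → (∃ n, u + v = n + n) →
      ¬ good G Y p l b u v) := by
    intro u
    obtain ⟨z, hz⟩ := D.collect hS (R := fun v b => b ∈ B → (∃ n, u + v = n + n) →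
      ¬ good G Y p l b u v) (by
        refine D.imp (D.mem h.mem (DF.v1 hS)) (D.imp ?_ (D.not ?_))
        · exact D.even hS (DF.const hS u) (DF.v0 hS)
        · exact D.good hS h.dfn hY p l (DF.v1 hS) (DF.const hS u) (DF.v0 hS))
      L (fun v _ => hbad u v)
    exact ⟨z, fun b hb v hv => hz v hv b hb⟩
  obtain ⟨z, hz⟩ := D.collect hS (R := fun u b => ∀ v < L, (b ∈ B → (∃ n, u + v = n + n) →
      ¬ good G Y p l b u v)) (by
        refine D.ball hS (R := fun v (a : N × N × PUnit.{u + 1}) => (a.2.1 ∈ B →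
          (∃ n, a.1 + v = n + n) → ¬ good G Y p l a.2.1 a.1 v)) ?_ (DF.const hS L)
        refine D.imp (D.mem h.mem (DF.v2 hS)) (D.imp ?_ (D.not ?_))
        · exact D.even hS (DF.v1 hS) (DF.v0 hS)
        · exact D.good hS h.dfn hY p l (DF.v2 hS) (DF.v1 hS) (DF.v0 hS))
      L (fun u _ => step u)
  obtain ⟨b, hb, hzb⟩ := h.unb z
  obtain ⟨u, hu, v, hv, he, hg⟩ := exists_good h hL b
  exact hz u hu b hzb v hv hb he hg

end Pool.Agent.Work.MP_69fea5_lc.H2
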