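import Pool.Agent.Work.MP_69fea5_lc.H2.Basic

/-!
Item SEQ: positions at which the past of `C` is in the minimal system.
-/

set_option autoImplicit false

namespace Pool.Agent.Work.MP_69fea5_lc.H2

universe u

namespace I_SEQ

section

variable {N : Type u} [CommSemiring N] [LinearOrder N]

/-- the window of length `k + 1` ending at `b` is the initial window of `Y` -/
def P (C Y : Set N) (k b : N) : Prop := k ≤ b ∧ ∃ x, x + k = b ∧ W C x Y 0 (k + 1)

/-- `b` is least with `P k b` -/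
def L (C Y : Set N) (k b : N) : Prop := P C Y k b ∧ ∀ b' < b, ¬ P C Y k b'

variable {S : Set (Set N)}

theorem dP (hS : Good S) {C Y : Set N} (hC : C ∈ S) (hY : Y ∈ S) :
    D S fun p : N × N × PUnit.{u + 1} => P C Y p.1 p.2.1 := by
  refine (D.le hS (DF.v0 hS) (DF.v1 hS)).and ?_
  refine D.ex (R := fun x (p : N × N × PUnit.{u + 1}) => x + p.1 = p.2.1 ∧
    W C x Y 0 (p.1 + 1)) ?_
  exact (D.eq (DF.add hS (DF.v0 hS) (DF.v1 hS)) (DF.v2 hS)).and
    (D.W hS hC hY (DF.v0 hS) (DF.zero hS) (DF.add hS (DF.v1 hS) (DF.one hS)))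

theorem dL (hS : Good S) {C Y : Set N} (hC : C ∈ S) (hY : Y ∈ S) :
    D S fun p : N × N × PUnit.{u + 1} => L C Y p.1 p.2.1 := by
  refine (dP hS hC hY).and ?_
  exact D.ball hS (R := fun b' (p : N × N × PUnit.{u + 1}) => ¬ P C Y p.1 b')
    (D.not (D.comp2 (dP hS hC hY) (DF.v1 hS) (DF.v0 hS))) (DF.v1 hS)

end

end I_SEQ

open I_SEQ in
theorem SEQ_pf : S_SEQ.{u} := by
  intro N _ _ _ _ S hS C hC Y hY hM
  refine ⟨{b | ∃ k, L C Y k b}, ?_, ?_, ?_⟩
  · exact D.set0 hS (R := fun b => ∃ k, L C Y k b)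
      (D.ex (R := fun k (p : N × PUnit.{u + 1}) => L C Y k p.1) (dL hS hC hY))
  · intro m
    obtain ⟨x, -, hx⟩ := hM.far 0 (m + 1) m
    obtain ⟨b, hb, hb'⟩ := D.least hS (R := fun b => P C Y m b)
      (D.comp2 (dP hS hC hY) (DF.const hS m) (DF.v0 hS))
      ⟨x + m, le_add_self, x, rfl, hx⟩
    exact ⟨b, ⟨m, hb, hb'⟩, hb.1⟩
  · intro m
    obtain ⟨z, hz⟩ := D.collect hS (R := fun k b => ¬ L C Y k b) (dL hS hC hY).not m (by
      intro k _
      by_cases h : ∃ b0, L C Y k b0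
      · obtain ⟨b0, h0⟩ := h
        refine ⟨b0 + 1, fun b hb hL => ?_⟩
        exact hL.2 b0 (lt_of_lt_of_le (Good.lt_succ_self b0) hb) h0.1
      · exact ⟨0, fun b _ hL => h ⟨b, hL⟩⟩)
    refine ⟨z, ?_⟩
    rintro b ⟨k, hk⟩ hzb
    have hmk : m ≤ k := by
      by_contra hc
      exact hz k (not_le.1 hc) b hzb hk
    obtain ⟨e, rfl⟩ := exists_add hmk
    obtain ⟨-, x, hx, hW⟩ := hk.1
    refine ⟨x + e, 0 + e, ?_, ?_⟩
    · rw [← hx]; ring
    · exact hW.sub (le_of_eq (by ring))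

end Pool.Agent.Work.MP_69fea5_lc.H2
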