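import Pool.Agent.Work.MP_69fea5_lc.H2.Calc

/-!
Statements of the steps of the proof that ACA_0 proves Hindman's theorem for two colours and sums
of at most two terms. `N` is a (possibly nonstandard) model, `S` its family of sets.
-/

set_option autoImplicit false

namespace Pool.Agent.Work.MP_69fea5_lc.H2

universe u

section defs

variable {N : Type u} [CommSemiring N] [LinearOrder N]

/-- the window of `A` at `p` of length `l` equals the window of `B` at `q` -/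
def W (A : Set N) (p : N) (B : Set N) (q l : N) : Prop := ∀ k < l, (p + k ∈ A ↔ q + k ∈ B)

/-- `A` is unbounded -/
def Unb (A : Set N) : Prop := ∀ m, ∃ x ∈ A, m ≤ x

/-- for all large `b` in `B` -/
def Ev (B : Set N) (P : N → Prop) : Prop := ∃ z, ∀ b ∈ B, z ≤ b → P b

/-- the bounded set coded by `a`, `m` -/
def bs (a m : N) : Set N := {k | 1 + (k + 1) * m ∣ a}

/-- pairing -/
def pr (p l : N) : N := (p + l) * (p + l) + p

/-- the window of `C` at `x` of length `n` avoids all words `C[p, p+l)` with `pr p l ∈ F` -/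
def Av (C F : Set N) (x n : N) : Prop :=
  ∀ p l j, pr p l ∈ F → j + l ≤ n → ¬ W C (x + j) C p l

/-- arbitrarily long windows of `C` avoid `F`, arbitrarily far -/
def Free (C F : Set N) : Prop := ∀ n z, ∃ x, z ≤ x ∧ Av C F x n

/-- the elements of `A` below `i` -/
def Below (A : Set N) (i : N) : Set N := {k | k ∈ A ∧ k < i}

/-- the greedy set of forbidden words -/
def Forb (C A : Set N) : Prop :=
  ∀ i, (i ∈ A ↔ (∃ p l, i = pr p l) ∧ Free C {k | (k ∈ A ∧ k < i) ∨ k = i})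

/-- `Y` is a (one-sided) uniformly recurrent sequence all of whose windows occur arbitrarily
far in `C` -/
structure Min (C Y : Set N) : Prop where
  far : ∀ p l z, ∃ x, z ≤ x ∧ W C x Y p l
  recur : ∀ p l, ∃ r, ∀ q, ∃ w < r, W Y (q + w) Y p l

/-- the window of `Y` at `p'` of length `l'` contains the window of `Y` at `p` of length `l` at
offset `d` -/
def Ext (Y : Set N) (p' l' d p l : N) : Prop := d + l ≤ l' ∧ W Y (p' + d) Y p l

/-- the window of `Y` at `p` of length `l`, pointed at `i`, is blocked -/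
def Blk (C Y : Set N) (p l i : N) : Prop :=
  ∃ n, ∀ s, n ≤ s → W C s Y p l → ∀ q, W Y q Y p l → (q + i + (s + i) ∈ Y ↔ p + i ∉ Y)

/-- blocked words are dense (Case II) -/
def BD (C Y : Set N) : Prop :=
  ∀ p l i, i < l → ∃ p' l' d, Ext Y p' l' d p l ∧ Blk C Y p' l' (i + d)

/-- solutions of colour `r` -/
def Sol (S : Set (Set N)) (C : Set N) (r : Prop) : Prop :=
  ∃ X ∈ S, Unb X ∧ ∀ x ∈ X, 0 < x ∧ (x ∈ C ↔ r) ∧ ∀ y ∈ X, y < x → (x + y ∈ C ↔ r)

/-- a double limit along `B`: `G m t` is the limit point at the integer `t - m` -/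
structure TwoLim (S : Set (Set N)) (C Y B : Set N) (G : N → N → Prop) : Prop where
  mem : B ∈ S
  unb : Unb B
  dfn : D S fun p : N × N × PUnit.{u + 1} => G p.1 p.2.1
  shift : ∀ m t r, (G (m + r) (t + r) ↔ G m t)
  win : ∀ m l, ∃ q, ∀ t < l, (G m t ↔ q + t ∈ Y)
  lim : ∀ l, Ev B fun b => Ev B fun b' => ∀ t < l, ∀ z, z + b = b' → (z + t ∈ C ↔ G 0 t)

end defs

/-! ### statements -/

section stmts

/-- ALG: a model of `ACA_0` is an ordered semiring with a good family of sets. -/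
def S_ALG : Prop := ∀ (N : Type u) (M : L2 N), IsModelACA0 M → M.sets.Nonempty →
  ∃ (_ : CommSemiring N) (_ : LinearOrder N), IsStrictOrderedRing N ∧ CanonicallyOrderedAdd N ∧
    M = std M.sets ∧ Good M.sets

def S_LCM : Prop := ∀ (N : Type u) [CommSemiring N] [LinearOrder N] [IsStrictOrderedRing N]
  [CanonicallyOrderedAdd N] (S : Set (Set N)), Good S →
  ∀ n : N, ∃ m, 0 < m ∧ ∀ j, 0 < j → j ≤ n → j ∣ m

def S_INV : Prop := ∀ (N : Type u) [CommSemiring N] [LinearOrder N] [IsStrictOrderedRing N]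
  [CanonicallyOrderedAdd N] (S : Set (Set N)), Good S →
  ∀ n m : N, 0 < m → (∀ j, 0 < j → j ≤ n → j ∣ m) → ∀ i k, i < n → k < n → i ≠ k →
    ∃ s t, s * (1 + (i + 1) * m) = 1 + t * (1 + (k + 1) * m)

/-- CODE: bounded parts of sets are coded. -/
def S_CODE : Prop := ∀ (N : Type u) [CommSemiring N] [LinearOrder N] [IsStrictOrderedRing N]
  [CanonicallyOrderedAdd N] (S : Set (Set N)), Good S →
  ∀ X ∈ S, ∀ n : N, ∃ a m, ∀ k < n, (k ∈ bs a m ↔ k ∈ X)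

/-- CV: course of values recursion for sets. -/
def S_CV : Prop := ∀ (N : Type u) [CommSemiring N] [LinearOrder N] [IsStrictOrderedRing N]
  [CanonicallyOrderedAdd N] (S : Set (Set N)), Good S →
  ∀ Φ : N → Set N → Prop, (∀ x F F', (∀ k < x, (k ∈ F ↔ k ∈ F')) → (Φ x F ↔ Φ x F')) →
    (D S fun p : N × N × N × PUnit.{u + 1} => Φ p.1 (bs p.2.1 p.2.2.1)) →
    ∃ X ∈ S, ∀ x, (x ∈ X ↔ Φ x X)

/-- COH: cohesive subsets. -/
def S_COH : Prop := ∀ (N : Type u) [CommSemiring N] [LinearOrder N] [IsStrictOrderedRing N]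
  [CanonicallyOrderedAdd N] (S : Set (Set N)), Good S →
  ∀ R : N → N → Prop, (D S fun p : N × N × PUnit.{u + 1} => R p.1 p.2.1) →
    ∀ B ∈ S, Unb B → ∃ B' ∈ S, B' ⊆ B ∧ Unb B' ∧
      ∀ n, Ev B' (fun b => R n b) ∨ Ev B' (fun b => ¬ R n b)

/-- FORB: existence of the greedy set of forbidden words. -/
def S_FORB : Prop := ∀ (N : Type u) [CommSemiring N] [LinearOrder N] [IsStrictOrderedRing N]
  [CanonicallyOrderedAdd N] (S : Set (Set N)), Good S →
  ∀ C ∈ S, ∃ A ∈ S, Forb C A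

def S_BKA : Prop := ∀ (N : Type u) [CommSemiring N] [LinearOrder N] [IsStrictOrderedRing N]
  [CanonicallyOrderedAdd N] (S : Set (Set N)), Good S →
  ∀ C ∈ S, ∀ A ∈ S, Forb C A → ∀ i, Free C (Below A i)

def S_BKB : Prop := ∀ (N : Type u) [CommSemiring N] [LinearOrder N] [IsStrictOrderedRing N]
  [CanonicallyOrderedAdd N] (S : Set (Set N)), Good S → ∀ (C A : Set N), Forb C A →
  ∀ p l, pr p l ∉ A → ∃ n z, ∀ x, z ≤ x → Av C (Below A (pr p l)) x n →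
    ∃ j, j + l ≤ n ∧ W C (x + j) C p l

def S_BKC : Prop := ∀ (N : Type u) [CommSemiring N] [LinearOrder N] [IsStrictOrderedRing N]
  [CanonicallyOrderedAdd N] (S : Set (Set N)), Good S → ∀ (C A : Set N), Forb C A → (∀ i, Free C (Below A i)) →
  ∀ p l j p' l', pr p l ∉ A → j + l' ≤ l → W C (p + j) C p' l' → pr p' l' ∉ A

/-- BKY: the sequence `Y`. -/
def S_BKY : Prop := ∀ (N : Type u) [CommSemiring N] [LinearOrder N] [IsStrictOrderedRing N]
  [CanonicallyOrderedAdd N] (S : Set (Set N)), Good S →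
  ∀ C ∈ S, ∀ A ∈ S, ∃ Y ∈ S, ∀ n,
    (n ∈ Y ↔ ∃ p, pr p (n + 1) ∉ A ∧ W C p Y 0 n ∧ p + n ∈ C)

def S_BKP : Prop := ∀ (N : Type u) [CommSemiring N] [LinearOrder N] [IsStrictOrderedRing N]
  [CanonicallyOrderedAdd N] (S : Set (Set N)), Good S →
  ∀ C ∈ S, ∀ A ∈ S, Forb C A → (∀ i, Free C (Below A i)) →
  ∀ Y ∈ S, (∀ n, (n ∈ Y ↔ ∃ p, pr p (n + 1) ∉ A ∧ W C p Y 0 n ∧ p + n ∈ C)) →
    ∀ n, ∃ p, pr p n ∉ A ∧ W C p Y 0 n

def S_BKM : Prop := ∀ (N : Type u) [CommSemiring N] [LinearOrder N] [IsStrictOrderedRing N]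
  [CanonicallyOrderedAdd N] (S : Set (Set N)), Good S → ∀ (C A Y : Set N), Forb C A → (∀ i, Free C (Below A i)) →
  (∀ n, ∃ p, pr p n ∉ A ∧ W C p Y 0 n) → Min C Y

/-- C1: Case I. -/
def S_C1 : Prop := ∀ (N : Type u) [CommSemiring N] [LinearOrder N] [IsStrictOrderedRing N]
  [CanonicallyOrderedAdd N] (S : Set (Set N)), Good S →
  ∀ C ∈ S, ∀ Y ∈ S, Min C Y → ¬ BD C Y → ∃ r, Sol S C r

/-- MONO: extensions of blocked words are blocked. -/
def S_MONO : Prop := ∀ (N : Type u) [CommSemiring N] [LinearOrder N] [IsStrictOrderedRing N]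
  [CanonicallyOrderedAdd N] (S : Set (Set N)), Good S → ∀ (C Y : Set N) (p' l' d p l i : N),
  Ext Y p' l' d p l → i < l → Blk C Y p l i → Blk C Y p' l' (i + d)

/-- MID: the midpoint lemma. -/
def S_MID : Prop := ∀ (N : Type u) [CommSemiring N] [LinearOrder N] [IsStrictOrderedRing N]
  [CanonicallyOrderedAdd N] (S : Set (Set N)), Good S → ∀ (C Y : Set N), Min C Y → BD C Y →
  ∀ p l i a t, i < l → Blk C Y p l i → W Y a Y p l → W Y (a + (t + t)) Y p l →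
    (a + t + i ∈ Y ↔ p + i ∈ Y)

/-- ALLC: every word has an extension which is blocked for all its inner points. -/
def S_ALLC : Prop := ∀ (N : Type u) [CommSemiring N] [LinearOrder N] [IsStrictOrderedRing N]
  [CanonicallyOrderedAdd N] (S : Set (Set N)), Good S →
  ∀ C ∈ S, ∀ Y ∈ S, BD C Y → ∀ p l, ∃ p' l' d, Ext Y p' l' d p l ∧
    ∀ i < l, Blk C Y p' l' (i + d)

/-- SEQ: positions at which the past of `C` is in the minimal system. -/
def S_SEQ : Prop := ∀ (N : Type u) [CommSemiring N] [LinearOrder N] [IsStrictOrderedRing N]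
  [CanonicallyOrderedAdd N] (S : Set (Set N)), Good S →
  ∀ C ∈ S, ∀ Y ∈ S, Min C Y → ∃ B ∈ S, Unb B ∧
    ∀ m, Ev B fun b => ∃ x q, x + m = b ∧ W C x Y q (m + 1)

/-- HLIM: the limit `H` of the pasts of `C`. -/
def S_HLIM : Prop := ∀ (N : Type u) [CommSemiring N] [LinearOrder N] [IsStrictOrderedRing N]
  [CanonicallyOrderedAdd N] (S : Set (Set N)), Good S →
  ∀ C ∈ S, ∀ Y ∈ S, (∃ B ∈ S, Unb B ∧
    ∀ m, Ev B fun b => ∃ x q, x + m = b ∧ W C x Y q (m + 1)) →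
  ∃ B ∈ S, ∃ H ∈ S, Unb B ∧
    (∀ m, Ev B fun b => ∀ t ≤ m, ∀ x, x + t = b → (x ∈ C ↔ t ∈ H)) ∧
    (∀ m : N, ∃ q : N, ∀ t t' : N, t + t' = m → (t ∈ H ↔ q + t' ∈ Y))

/-- GLIM: the double limit. -/
def S_GLIM : Prop := ∀ (N : Type u) [CommSemiring N] [LinearOrder N] [IsStrictOrderedRing N]
  [CanonicallyOrderedAdd N] (S : Set (Set N)), Good S →
  ∀ C ∈ S, ∀ Y ∈ S, ∀ B ∈ S, ∀ H ∈ S, Unb B →
    (∀ m, Ev B fun b => ∀ t ≤ m, ∀ x, x + t = b → (x ∈ C ↔ t ∈ H)) →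
    (∀ m : N, ∃ q : N, ∀ t t' : N, t + t' = m → (t ∈ H ↔ q + t' ∈ Y)) →
    ∃ B' G, TwoLim S C Y B' G

/-- PAR: occurrences of the right parity. -/
def S_PAR : Prop := ∀ (N : Type u) [CommSemiring N] [LinearOrder N] [IsStrictOrderedRing N]
  [CanonicallyOrderedAdd N] (S : Set (Set N)), Good S →
  ∀ Y : Set N, (∀ p l, ∃ r, ∀ q, ∃ w < r, W Y (q + w) Y p l) →
  ∀ p l, ∃ L, ∀ q e, ∃ u < L, ∃ v < L, W Y (q + v) Y p l ∧ W Y (q + (e + e) + u) Y p l ∧
    ∃ n, u + v = n + n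

/-- PIG: the offsets can be made constant. -/
def S_PIG : Prop := ∀ (N : Type u) [CommSemiring N] [LinearOrder N] [IsStrictOrderedRing N]
  [CanonicallyOrderedAdd N] (S : Set (Set N)), Good S →
  ∀ C ∈ S, ∀ Y ∈ S, ∀ (B : Set N) (G : N → N → Prop), TwoLim S C Y B G →
  (∀ p l, ∃ L, ∀ q e, ∃ u < L, ∃ v < L, W Y (q + v) Y p l ∧ W Y (q + (e + e) + u) Y p l ∧
    ∃ n, u + v = n + n) →
  ∀ p l, ∃ u v n : N, u + v = n + n ∧ ∀ z, ∃ b ∈ B, z ≤ b ∧
    (∀ k < l, (G (4 * b) (v + k) ↔ p + k ∈ Y)) ∧ (∀ k < l, (G 0 (4 * b + u + k) ↔ p + k ∈ Y))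

/-- FIN: Case II, the main claim. -/
def S_FIN : Prop := ∀ (N : Type u) [CommSemiring N] [LinearOrder N] [IsStrictOrderedRing N]
  [CanonicallyOrderedAdd N] (S : Set (Set N)), Good S →
  ∀ C ∈ S, ∀ Y ∈ S, ∀ (B : Set N) (G : N → N → Prop), TwoLim S C Y B G →
  (∀ p l, ∃ u v n : N, u + v = n + n ∧ ∀ z, ∃ b ∈ B, z ≤ b ∧
    (∀ k < l, (G (4 * b) (v + k) ↔ p + k ∈ Y)) ∧ (∀ k < l, (G 0 (4 * b + u + k) ↔ p + k ∈ Y))) →
  (∀ p l i a t, i < l → Blk C Y p l i → W Y a Y p l → W Y (a + (t + t)) Y p l →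
    (a + t + i ∈ Y ↔ p + i ∈ Y)) →
  (∀ p l, ∃ p' l' d, Ext Y p' l' d p l ∧ ∀ i < l, Blk C Y p' l' (i + d)) →
  ∀ m, ∃ x, m ≤ x ∧ (∀ s ≤ m, (x + s ∈ C ↔ G 0 s)) ∧ (G 0 x ↔ G 0 0)

/-- GRD: the greedy solution. -/
def S_GRD : Prop := ∀ (N : Type u) [CommSemiring N] [LinearOrder N] [IsStrictOrderedRing N]
  [CanonicallyOrderedAdd N] (S : Set (Set N)), Good S →
  ∀ C ∈ S, ∀ g : N → Prop, (D S fun p : N × PUnit.{u + 1} => g p.1) →
    (∀ m, ∃ x, m ≤ x ∧ (∀ s ≤ m, (x + s ∈ C ↔ g s)) ∧ (g x ↔ g 0)) → Sol S C (g 0)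

/-- MAIN: every two-colouring in a good family has a solution in the family. -/
def S_MAIN : Prop := ∀ (N : Type u) [CommSemiring N] [LinearOrder N] [IsStrictOrderedRing N]
  [CanonicallyOrderedAdd N] (S : Set (Set N)), Good S → ∀ C ∈ S, ∃ r, Sol S C r

end stmts

end Pool.Agent.Work.MP_69fea5_lc.H2
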